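import Pool.Agent.MP_ee8c61_ag.H95G.Stmt

/-! Sets of divisors with the same ratio that are ample or compute a threshold. -/

namespace Pool.Agent.MP_ee8c61_ag.H95G

open H95 AlgebraicGeometry

/-- On some log resolution of `I` there are `m` divisors of ratio `(κ + 1) / α` through one point
`x` that satisfy `Amp`, or whose ratio is least among the divisors that meet the fibre of `x`. -/
def Cert {N : ℕ} (I : Ideal (MvPolynomial (Fin N) ℂ)) (α κ m : ℕ) : Prop :=
  ∃ (Y : Scheme.{0}) (π : Y ⟶ Aff N) (J : Type) (_ : Fintype J) (E : J → Set Y) (a k : J → ℕ)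
    (W : Finset J) (x : Y), IsLogRes I π E a k ∧ W.card = m ∧
    (∀ j ∈ W, x ∈ E j ∧ α * (k j + 1) = a j * (κ + 1)) ∧
    (Amp π E a k W ∨ IsClosed {x} ∧
      ∀ j, (E j ∩ fib π I x).Nonempty → a j * (κ + 1) ≤ α * (k j + 1))

end Pool.Agent.MP_ee8c61_ag.H95G
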