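import Pool.Agent.MP_ee8c61_ag.H95.ADefs

/-! Divisors on a log resolution that are ample over the blow-up of the ideal. -/

namespace Pool.Agent.MP_ee8c61_ag.H95G

open H95 AlgebraicGeometry

/-- There is an ideal `(p i)` with log resolution `π` and divisor `∑ n j E' j`, where the `E' j`
include the `E j`, such that the map from `Y` to its blow-up is affine, and the coefficients of
the divisor `(τ a - n) / μ` are at most `k j + 1`, with equality for `j` in `W`. -/
def Amp {N : ℕ} {Y : Scheme.{0}} (π : Y ⟶ Aff N) {J : Type} (E : J → Set Y) (a k : J → ℕ)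
    (W : Finset J) : Prop :=
  ∃ (J' : Type) (_ : Fintype J') (E' : J' → Set Y) (n k' : J' → ℕ) (e : J → J') (M : ℕ)
    (p : Fin M → MvPolynomial (Fin N) ℂ) (μ τ : ℕ),
    IsLogRes (Ideal.span (Set.range p)) π E' n k' ∧ (∀ j, E' (e j) = E j ∧ k' (e j) = k j) ∧
    (∀ i, ∃ U : Y.Opens, IsAffineOpen U ∧
      ∀ y, y ∈ U ↔ Gen π (Ideal.span (Set.range p)) y (p i)) ∧
    0 < μ ∧ (∀ j, τ * a j ≤ n (e j) + μ * (k j + 1)) ∧
    ∀ j ∈ W, τ * a j = n (e j) + μ * (k j + 1)

end Pool.Agent.MP_ee8c61_ag.H95G
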