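import Pool.Agent.MP_ee8c61_ag.H95G.SDefs
import Pool.Agent.MP_ee8c61_ag.H95G.Stmt

/-! From a log resolution to a system of charts: the statements of the steps. -/

namespace Pool.Agent.MP_ee8c61_ag.H95G

open H59 H95 AlgebraicGeometry MvPolynomial

/-! ### Algebra -/

def Red : Prop := ∀ (R A : Type) [CommRing R] [IsDomain R] [CommRing A] (φ : R →+* A),
  φ.Etale → IsReduced A

def Rad : Prop := ∀ (A : Type) [CommRing A] (N : ℕ) (φ : Po N →+* A), φ.Etale →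
  ∀ i, (Ideal.span {φ (X i)}).IsRadical

def SRad : Prop := Red ∧ Rad

/-- A derivation extends to the field of fractions. -/
def SExt : Prop := ∀ (A K : Type) [CommRing A] [Field K] [Algebra ℂ K] (φ : A →+* K)
  (c : ℂ →+* A) (D : A → A), Function.Injective φ → (∀ t, φ (c t) = algebraMap ℂ K t) →
  (∀ g : K, ∃ s t, φ s ≠ 0 ∧ φ s * g = φ t) → IsDer c D →
  ∃ D' : Derivation ℂ K K, ∀ s, D' (φ s) = φ (D s)

/-! ### Schemes -/

def Intg : Prop := ∀ (N : ℕ) (Y : Scheme.{0}) (π : Y ⟶ Aff N) (J : Type) (I : Ideal (Po N))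
  (E : J → Set Y) (a k : J → ℕ), IsLogRes I π E a k → Nonempty Y → IsIntegral Y

def SInt : Prop := Red → Intg

def SGeo : Prop := ∀ (N : ℕ) (Y : Scheme.{0}) [IsIntegral Y] (π : Y ⟶ Aff N), IsProper π →
  (geo π).OK

def SValu : Prop := ∀ (N : ℕ) (Y : Scheme.{0}) [IsIntegral Y] (π : Y ⟶ Aff N), IsProper π →
  (geo π).Val (xx π)

def Chts : Prop := ∀ (N : ℕ) (Y : Scheme.{0}) [IsIntegral Y] (π : Y ⟶ Aff N) (J κ : Type)
  [Fintype J] [Fintype κ] (p : κ → Po N) (E : J → Set Y) (a k : J → ℕ),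
  IsLogRes (Ideal.span (Set.range p)) π E a k → (geo π).Res (xx π) (fun j => ev π (p j)) E a k

def SCht : Prop := SExt → Chts

/-! ### Charts -/

/-- The derivations dual to the coordinates of affine space. -/
def SFrame : Prop := ∀ (K Y J κ : Type) (N : ℕ) [Field K] [Algebra ℂ K] [TopologicalSpace Y]
  [Fintype J] [Fintype κ] (G : Geo K Y) (x : Fin N → K) (q : κ → K) (E : J → Set Y) (a k : J → ℕ)
  (C : Cht K Y J N), G.OK → C.OK G x q E a k → C.U.Nonempty →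
  ∃ R : Fin N → Derivation ℂ K K, (∀ i j, R i (x j) = if i = j then 1 else 0) ∧
    (∀ i j g, R i (R j g) = R j (R i g)) ∧
    ∀ (δ : Derivation ℂ K K) (g : K), δ g = ∑ l, δ (x l) * R l g

/-- Two equations of the same divisor differ by a unit. -/
def Cmp : Prop := ∀ (K Y J J' κ κ' : Type) (N : ℕ) [Field K] [Algebra ℂ K] [TopologicalSpace Y]
  [Fintype J] [Fintype J'] [Fintype κ] [Fintype κ'] (G : Geo K Y) (x : Fin N → K) (q : κ → K)
  (q' : κ' → K) (E : J → Set Y) (E' : J' → Set Y) (a k : J → ℕ) (a' k' : J' → ℕ)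
  (C : Cht K Y J N) (C' : Cht K Y J' N) (j : J) (j' : J') (y : Y), G.OK → C.OK G x q E a k →
  C'.OK G x q' E' a' k' → E' j' = E j → y ∈ C.U → y ∈ C'.U → G.Un y (C.η j / C'.η j')

def SCmp : Prop := Rad → Cmp

def Ord : Prop := ∀ (K Y J J' κ κ' : Type) (N : ℕ) [Field K] [Algebra ℂ K] [TopologicalSpace Y]
  [Fintype J] [Fintype J'] [Fintype κ] [Fintype κ'] (G : Geo K Y) (x : Fin N → K) (F : κ → K)
  (q : κ' → K) (E : J → Set Y) (E' : J' → Set Y) (a k : J → ℕ) (a' n k' : J' → ℕ) (e : J → J')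
  (C' : Cht K Y J' N) (j₀ : κ) (y : Y), G.OK → G.Res x F E a k → C'.OK G x q E' n k' →
  e.Injective → (∀ j, E' (e j) = E j) → (∀ j, a' (e j) = a j) →
  (∀ j', j' ∉ Set.range e → a' j' = 0) → y ∈ C'.U → G.Gn F j₀ y → G.Un y (F j₀ / C'.mon a')

def SOrd : Prop := Cmp → Ord

def SCov : Prop := ∀ (K Y J κ κ' : Type) (N : ℕ) [Field K] [Algebra ℂ K] [TopologicalSpace Y]
  [Fintype J] [Fintype κ] [Fintype κ'] (G : Geo K Y) (x : Fin N → K) (q : κ → K) (E : J → Set Y)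
  (n k : J → ℕ) (F : κ' → K) (j₀ : κ'), G.OK → G.Res x q E n k → (∀ i, G.Af {y | G.Gn q i y}) →
  F j₀ ≠ 0 → ∃ (ι : Type) (_ : Fintype ι) (C : ι → Cht K Y J N) (U : ι → Set Y) (i : ι → κ)
    (g : ι → K) (d : ℕ), Cov G x q E n k F j₀ C U i g d

def MkSys : Prop := ∀ (K Y J κ κ' ι : Type) (N : ℕ) [Field K] [Algebra ℂ K] [TopologicalSpace Y]
  [Fintype J] [Fintype κ] [Nonempty ι] (G : Geo K Y) (x : Fin N → K) (q : κ → K) (E : J → Set Y)
  (n k : J → ℕ) (F : κ' → K) (j₀ : κ') (C : ι → Cht K Y J N) (U : ι → Set Y) (i : ι → κ)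
  (g : ι → K) (d : ℕ), G.OK → Cov G x q E n k F j₀ C U i g d →
  ∃ S : Sys ℂ K ι J N, Fit S G x C U

def SSys : Prop := Cmp → SFrame → MkSys

def SPol : Prop := ∀ (K Y J κ ι : Type) (N r : ℕ) [Field K] [Algebra ℂ K] [TopologicalSpace Y]
  [Fintype J] [Fintype κ] (G : Geo K Y) (x : Fin N → K) (q : κ → K) (E : J → Set Y)
  (a n k : J → ℕ) (F : Fin r → K) (j₀ : Fin r) (C : ι → Cht K Y J N) (U : ι → Set Y) (i : ι → κ)
  (g : ι → K) (d τ : ℕ) (S : Sys ℂ K ι J N), G.OK → G.Val x → (∀ y l, x l ∈ G.O y) →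
  Cov G x q E n k F j₀ C U i g d → Fit S G x C U → (∀ y, ∃ j, G.Gn F j y) →
  (∀ c, ∀ y ∈ U c, G.Un y (F j₀ / (C c).mon a)) →
  ∃ ρ : ι → Kˣ, S.Pol (Fin.append x fun j => F j / F j₀)
    (fun j => (d : ℤ) * (τ * a j - n j)) ρ

/-! ### The functional equation -/

structure PhiOK {K κ : Type} [Field K] [Algebra ℂ K] [Fintype κ] (v : κ → K) (F : K) : Prop where
  nab : ∀ (R : Derivation ℂ K K) σ t H, Phi v F σ t (nb v F R H) = R (Phi v F σ t H)
  s : ∀ σ t H, Phi v F σ t (X none * H) = σ * Phi v F σ t H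
  xi : ∀ σ t j H, Phi v F σ t (X (some j) * pderiv (some j) H + X (some j) * C (v j) * H) =
    t j * Phi v F σ t H
  inj : ∀ H, (∀ σ t, ∑ j, t j ≤ σ → Phi v F σ t H = 0) → H = 0

def SPhi : Prop := ∀ (K κ : Type) [Field K] [Algebra ℂ K] [Fintype κ] (v : κ → K) (F : K),
  F ≠ 0 → PhiOK v F

/-- The functional equation for the generating function. -/
def Bs2 : Prop := ∀ (K : Type) [Field K] [Algebra ℂ K] (N r : ℕ) (x : Fin N → K)
  (f : Fin r → Po N) (b : Polynomial ℂ) (j₀ : Fin r) (R : Fin N → Derivation ℂ K K)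
  (A : Subalgebra ℂ K), H10.IsBS f b → (∀ i j, R i (x j) = if i = j then 1 else 0) →
  aeval x (f j₀) ≠ 0 → (∀ j, aeval x (f j) / aeval x (f j₀) ∈ A) →
  Polynomial.aeval (X none : MvPolynomial (Option {j // j ≠ j₀}) K) b ∈ AddSubgroup.closure
    {H | ∃ (p : Po N) (L : List (Fin N)) (Q : MvPolynomial (Option {j // j ≠ j₀}) K),
      Q ∈ spol _ A ∧ H = C (aeval x p) * L.foldr (fun l H =>
        nb (fun j : {j // j ≠ j₀} => aeval x (f j) / aeval x (f j₀)) (aeval x (f j₀)) (R l) H)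
        (C (aeval x (f j₀)) * Q)}

def SBs2 : Prop := SPhi → Bs2

/-- The same after integration by parts. -/
def Bs : Prop := ∀ (K : Type) [Field K] [Algebra ℂ K] (N r : ℕ) (x : Fin N → K)
  (f : Fin r → Po N) (b : Polynomial ℂ) (j₀ : Fin r) (R : Fin N → Derivation ℂ K K)
  (A : Subalgebra ℂ K), H10.IsBS f b → (∀ i j, R i (x j) = if i = j then 1 else 0) →
  aeval x (f j₀) ≠ 0 → (∀ l, x l ∈ A) → (∀ j, aeval x (f j) / aeval x (f j₀) ∈ A) →
  ∃ (u : ℕ) (β : Fin N → PX (N + r) K) (Q : PX (N + r) K),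
    (∀ l e, aeval x (f j₀) ^ u * coeff e (β l) ∈ A) ∧ (∀ e, coeff e Q ∈ A) ∧
    Polynomial.aeval (X none : PX (N + r) K) b = C (aeval x (f j₀)) * Q +
      ∑ l, (dpol _ (R l) (β l) + (∑ i, X (some i) * C (R l
        ((Fin.append x fun j => aeval x (f j) / aeval x (f j₀) : Fin (N + r) → K) i)) +
        X none * C ((aeval x (f j₀))⁻¹ * R l (aeval x (f j₀)))) * β l)

def SBs : Prop := Bs2 → Bs

/-! ### Assembly -/

/-- The main theorem for systems of charts in a field. -/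
def MainF : Prop :=
  ∀ (K ι J : Type) (n m : ℕ) [Field K] [Algebra ℂ K] [Fintype ι] [Nonempty ι]
    [Fintype J] (S : Sys ℂ K ι J n) (x : Fin m → K) (f : Kˣ) (a kk : J → ℕ) (b : Polynomial ℂ)
    (w : J → ℤ) (ρ : ι → Kˣ) (μ : ℕ) (I : Finset J) (la : ℂ) (c0 : ι),
    MainK S x f a kk b → S.Pol x w ρ → 0 < μ → (∀ j, w j ≤ μ * (kk j + 1)) →
    (∀ j, a j = 0 → w j ≤ 0) →
    (∀ i ∈ I, w i = μ * (kk i + 1)) → (∀ i ∈ I, (kk i + 1 : ℂ) = la * a i) →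
    (¬ ∃ h : J → K, (∀ i, h i ∈ S.A c0) ∧ 1 = ∑ i ∈ I, (S.η c0 i : K) * h i) →
    (Polynomial.X + Polynomial.C la) ^ I.card ∣ b

def SRes : Prop := SMain → MainF

/-- The theorem for local rings in a field. -/
def Abs : Prop := ∀ (K Y J J' : Type) (N r M : ℕ) [Field K] [Algebra ℂ K] [TopologicalSpace Y]
  [Fintype J] [Fintype J'] (G : Geo K Y) (x : Fin N → K) (f : Fin r → Po N) (b : Polynomial ℂ)
  (q : Fin M → K) (E : J → Set Y) (E' : J' → Set Y) (a k : J → ℕ) (n k' : J' → ℕ) (e : J → J')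
  (μ τ : ℕ) (W : Finset J) (la : ℂ) (y₀ : Y), G.OK → G.Val x → (∀ y l, x l ∈ G.O y) →
  H10.IsBS f b → G.Res x (fun j => aeval x (f j)) E a k → G.Res x q E' n k' → e.Injective →
  (∀ j, E' (e j) = E j ∧ k' (e j) = k j) → (∀ i, G.Af {y | G.Gn q i y}) → 0 < μ →
  (∀ j, τ * a j ≤ n (e j) + μ * (k j + 1)) → (∀ j ∈ W, τ * a j = n (e j) + μ * (k j + 1)) →
  (∀ j ∈ W, (k j + 1 : ℂ) = la * a j) → (∀ j ∈ W, y₀ ∈ E j) →
  (Polynomial.X + Polynomial.C la) ^ W.card ∣ b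

def SAbs : Prop := SCov → MkSys → SPol → Ord → Bs → MainF → Abs

/-- The theorem for schemes. -/
def Root : Prop := ∀ (N r : ℕ) (f : Fin r → Po N) (b : Polynomial ℂ) (Y : Scheme.{0})
  (π : Y ⟶ Aff N) (J : Type) [Fintype J] (E : J → Set Y) (a k : J → ℕ) (W : Finset J) (la : ℂ)
  (y₀ : Y), H10.IsBS f b → IsLogRes (Ideal.span (Set.range f)) π E a k → Amp π E a k W →
  (∀ j ∈ W, (k j + 1 : ℂ) = la * a j) → (∀ j ∈ W, y₀ ∈ E j) →
  (Polynomial.X + Polynomial.C la) ^ W.card ∣ b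

theorem root_of_abs (h1 : Intg) (h2 : SGeo) (h3 : SValu) (h4 : Chts) (h5 : Abs) : Root := by
  intro N r f b Y π J _ E a k W la y₀ hb hY ⟨J', _, E', n, k', e, M, p, μ, τ, hP, he, hU, hμ, hle, heq⟩
    hla hy
  have := h1 N Y π J _ E a k hY ⟨y₀⟩
  refine h5 (FF π) Y J J' N r M (geo π) (xx π) f b (fun j => ev π (p j)) E E' a k n k' e μ τ W la y₀
    (h2 N Y π hY.proper) (h3 N Y π hY.proper) (fun y l => ev_mem π y _) hb ?_
    (h4 N Y π J' _ p E' n k' hP) (fun j j' h => hY.inj ?_) he (fun i => ?_) hμ hle heq hla hy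
  · simpa only [aeval_xx] using h4 N Y π J _ f E a k hY
  · rw [← (he j).1, h, (he j').1]
  · obtain ⟨U, h6, h7⟩ := hU i
    exact ⟨U, h6, Set.ext fun y => ((h7 y).trans (gen_iff π p i y)).symm⟩

theorem root_of (h1 : SRad) (h2 : SExt) (h3 : SInt) (h4 : SGeo) (h5 : SValu) (h6 : SCht)
    (h7 : SFrame) (h8 : SCmp) (h9 : SOrd) (h10 : SCov) (h11 : SSys) (h12 : SPol) (h13 : SPhi)
    (h14 : SBs2) (h15 : SBs) (h16 : SRes) (h17 : SAbs) (h : SMain) : Root :=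
  root_of_abs (h3 h1.1) h4 h5 (h6 h2) (h17 h10 (h11 (h8 h1.2) h7) h12 (h9 (h8 h1.2))
    (h15 (h14 h13)) (h16 h))

end Pool.Agent.MP_ee8c61_ag.H95G
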