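import Pool.Agent.MP_ee8c61_ag.H10.ResFinal
import Pool.Agent.MP_ee8c61_ag.H95.ARes
import Pool.Agent.MP_ee8c61_ag.H95G.Spec
import Pool.Agent.MP_ee8c61_ag.H95G.Cert

/-! The strong monodromy conjecture for divisors that are ample or compute a threshold. -/

namespace Pool.Agent.MP_ee8c61_ag.H95G

open AlgebraicGeometry H95

theorem cert_dvd (hroot : Root) {r N : ℕ} (f : Fin r → MvPolynomial (Fin N) ℂ) (b : Polynomial ℂ)
    (hb : H10.IsBS f b) {α κ m : ℕ} (hα : 0 < α) (h : Cert (Ideal.span (Set.range f)) α κ m) :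
    (Polynomial.X - Polynomial.C (-((κ + 1 : ℝ) / α : ℝ) : ℂ)) ^ m ∣ b := by
  classical
  obtain ⟨Y, π, J, _, E, a, k, W, x, hY, rfl, h1, h2⟩ := h
  have a0 : (0 : ℝ) < α := by exact_mod_cast hα
  rcases h2 with hA | ⟨hx, h2⟩
  · have a1 : (α : ℂ) ≠ 0 := by exact_mod_cast a0.ne'
    have := hroot N r f b Y π J E a k W (((κ + 1 : ℝ) / α : ℝ) : ℂ) x hb hY hA
      (fun j hj => ?_) fun j hj => (h1 j hj).1
    · rwa [map_neg, sub_neg_eq_add]
    · have h4 : ((α * (k j + 1) : ℕ) : ℂ) = (a j * (κ + 1) : ℕ) := congrArg _ (h1 j hj).2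
      push_cast at h4 ⊢
      field_simp
      linear_combination h4
  have hR := isRes hY
  have := hY.proper
  have := CP.t2 (π := π)
  obtain ⟨L, hL⟩ := exists_lc hY x
  obtain ⟨l, rfl⟩ := L.exists_cp hL hx
  refine H10.root_dvd f b hb _ _ _ a k hR l _ _ (fun j hj => ?_) fun j ⟨y, hy⟩ => ?_
  · refine ⟨(h1 j hj).1, ?_⟩
    rw [div_mul_eq_mul_div, eq_div_iff a0.ne', mul_comm, mul_comm _ (a j : ℝ)]
    exact_mod_cast (h1 j hj).2
  · rw [div_mul_eq_mul_div, div_le_iff₀ a0, mul_comm, mul_comm _ (α : ℝ)]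
    exact_mod_cast h2 j ⟨_, hy.1, fibre_sub hY l ⟨y, hy.2, rfl⟩⟩

theorem final (hroot : Root) {r N : ℕ} (f : Fin r → MvPolynomial (Fin N) ℂ) (b : Polynomial ℂ)
    (hb : H10.IsBS f b) (Y : Scheme.{0}) (π : Y ⟶ Aff N) (J : Type) [Fintype J] [DecidableEq J]
    (E : J → Set Y) (a k : J → ℕ) (hY : IsLogRes (Ideal.span (Set.range f)) π E a k)
    (χ : Set Y → ℤ) (T : Finset J)
    (H : ∀ I, χ (stratum E I) ≠ 0 → ∀ i ∈ I \ T, Cert (Ideal.span (Set.range f)) (a i) (k i)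
      ((I \ T).filter fun j => a i * (k j + 1) = a j * (k i + 1)).card) :
    ∃ Q : Polynomial ℂ, algebraMap (Polynomial ℂ) (RatFunc ℂ) b *
      (∏ i ∈ T, ((a i : RatFunc ℂ) * RatFunc.X + (k i : RatFunc ℂ) + 1)) * zeta E a k χ =
        algebraMap (Polynomial ℂ) (RatFunc ℂ) Q :=
  H10.zeta_poly' a k (fun i => (hY.comp i).2.2) (fun I => χ (stratum E I)) T b fun I h0 i hi =>
    cert_dvd hroot f b hb (hY.comp i).2.2 (H I h0 i hi)

end Pool.Agent.MP_ee8c61_ag.H95G
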