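import Pool.Agent.MP_ee8c61_ag.H95G.Spec

/-! Restriction of a system of charts in a field to the ring generated by the charts. -/

namespace Pool.Agent.MP_ee8c61_ag.H95G

open H59 MvPolynomial

namespace RESA

variable {K : Type} [Field K] [Algebra ℂ K] {Om : Subalgebra ℂ K}

/-- Restriction of a derivation to a subalgebra that it preserves. -/
noncomputable def res (D : Derivation ℂ K K) (h : ∀ g ∈ Om, D g ∈ Om) : Derivation ℂ Om Om :=
  Derivation.mk'
    { toFun := fun g => ⟨D g, h g g.2⟩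
      map_add' := fun a b => Subtype.ext (by simp)
      map_smul' := fun c a => Subtype.ext (by simp) }
    (fun a b => Subtype.ext (by simp))

theorem res_coe (D : Derivation ℂ K K) (h : ∀ g ∈ Om, D g ∈ Om) (g : Om) :
    ((res D h g : Om) : K) = D g := rfl

/-- The units of `K` that are units of the subalgebra. -/
abbrev UU (Om : Subalgebra ℂ K) : Subgroup Kˣ := Om.toSubsemiring.toSubmonoid.units

/-- The unit of the subalgebra attached to an element of `UU`. -/
def un (u : Kˣ) (h : u ∈ UU Om) : Omˣ :=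
  ⟨⟨u, h.1⟩, ⟨(u⁻¹ : Kˣ), h.2⟩, Subtype.ext u.mul_inv, Subtype.ext u.inv_mul⟩

/-- The inclusion of units. -/
def up (Om : Subalgebra ℂ K) : Omˣ →* Kˣ := Units.map (Om.val : Om →* K)

theorem up_un (u : Kˣ) (h : u ∈ UU Om) : up Om (un u h) = u := Units.ext rfl

theorem coe_up (u : Omˣ) : ((u : Om) : K) = (up Om u : Kˣ) := rfl

theorem inv_mem' {u : Kˣ} (h : u ∈ UU Om) : ((u⁻¹ : Kˣ) : K) ∈ Om := h.2

theorem cancel {u : Kˣ} (h : u ∈ UU Om) {g : K} (hg : u * g ∈ Om) : g ∈ Om := by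
  have h1 := mul_mem (inv_mem' h) hg
  rwa [Units.inv_mul_cancel_left] at h1

theorem coe_div {u v : Kˣ} (hu : u ∈ UU Om) (hv : v ∈ UU Om) :
    (((un u hu / un v hv : Omˣ) : Om) : K) = (u / v : Kˣ) := by
  rw [coe_up, map_div, up_un, up_un]

theorem comap_sup {A B : Subalgebra ℂ K} (hA : A ≤ Om) (hB : B ≤ Om) {g : Om}
    (hg : (g : K) ∈ A ⊔ B) : g ∈ A.comap Om.val ⊔ B.comap Om.val := by
  have e : A.comap Om.val ⊔ B.comap Om.val = (A ⊔ B).comap Om.val := by
    refine Subalgebra.map_injective (f := Om.val) Subtype.val_injective ?_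
    rw [Algebra.map_sup, Subalgebra.map_comap_eq_self (hA.trans Om.range_val.ge),
      Subalgebra.map_comap_eq_self (hB.trans Om.range_val.ge),
      Subalgebra.map_comap_eq_self ((sup_le hA hB).trans Om.range_val.ge)]
  rw [e]
  exact hg

theorem integral_of (s : Set Om) (g : Om)
    (h : IsIntegral (Algebra.adjoin ℂ (Om.val '' s)) (g : K)) :
    IsIntegral (Algebra.adjoin ℂ s) g := by
  rw [← AlgHom.map_adjoin] at h
  let e := (Algebra.adjoin ℂ s).equivMapOfInjective Om.val Subtype.val_injective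
  have h2 : IsIntegral (Algebra.adjoin ℂ s) (RingHom.id K (g : K)) := by
    refine IsIntegral.map_of_comp_eq (e.symm : _ →+* _) (RingHom.id K) ?_ h
    ext t
    obtain ⟨t, rfl⟩ := e.surjective t
    simp only [RingHom.comp_apply, RingHom.coe_coe, AlgEquiv.symm_apply_apply]
    rfl
  exact (isIntegral_algebraMap_iff (B := K) Subtype.val_injective).1 h2

theorem exists_lift {κ : Type} (P : MvPolynomial κ K) (h : ∀ e, coeff e P ∈ Om) :
    ∃ P' : MvPolynomial κ Om, map (Om.val : Om →+* K) P' = P := by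
  refine ⟨∑ e ∈ P.support, monomial e ⟨coeff e P, h e⟩, ?_⟩
  rw [map_sum]
  simp only [map_monomial]
  exact P.as_sum.symm

theorem map_dpol {κ : Type} (D : Derivation ℂ K K) (h : ∀ g ∈ Om, D g ∈ Om)
    (P : MvPolynomial κ Om) :
    map (Om.val : Om →+* K) (dpol κ (res D h) P) = dpol κ D (map (Om.val : Om →+* K) P) := by
  ext e
  rw [coeff_map, coeff_dpol, coeff_dpol, coeff_map]
  rfl

variable {ι J : Type} {n m : ℕ} {S : Sys ℂ K ι J n}

theorem η_in (S : Sys ℂ K ι J n) (a : ι) (j : J) : (S.η a j : K) ∈ S.A a := by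
  cases h : S.lab a j with
  | none => rw [S.η_none a j h]; exact one_mem _
  | some i => rw [S.η_some a j i h]; exact S.z_mem a i

/-- The subalgebra `Om` contains the data of the system. -/
structure Cl (S : Sys ℂ K ι J n) (Om : Subalgebra ℂ K) : Prop where
  A : ∀ a, S.A a ≤ Om
  η : ∀ a j, S.η a j ∈ UU Om
  r : ∀ l, S.r l ∈ Om
  R : ∀ l, ∀ g ∈ Om, S.R l g ∈ Om
  D : ∀ a i, ∀ g ∈ Om, S.D a i g ∈ Om

/-- The restricted system. -/
noncomputable def sys (h : Cl S Om) : Sys ℂ Om ι J n where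
  r l := ⟨S.r l, h.r l⟩
  R l := res (S.R l) (h.R l)
  A a := (S.A a).comap Om.val
  z a i := ⟨S.z a i, h.A a (S.z_mem a i)⟩
  D a i := res (S.D a i) (h.D a i)
  lab := S.lab
  η a j := un (S.η a j) (h.η a j)
  R_r i j := Subtype.ext (by
    rw [res_coe, S.R_r]
    split_ifs <;> rfl)
  R_comm i j g := Subtype.ext (S.R_comm i j g)
  D_z a i j := Subtype.ext (by
    rw [res_coe, S.D_z]
    split_ifs <;> rfl)
  D_R a i g := Subtype.ext (by
    rw [res_coe, S.D_R a i g, AddSubmonoidClass.coe_finsetSum]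
    rfl)
  z_mem a i := S.z_mem a i
  D_mem a i g hg := S.D_mem a i g hg
  lab_inj := S.lab_inj
  η_some a j i e := Subtype.ext (S.η_some a j i e)
  η_none a j e := Units.ext (Subtype.ext (congrArg Units.val (S.η_none a j e)))
  η_mem a b j := comap_sup (h.A a) (h.A b) (by
    rw [coe_div]
    exact S.η_mem a b j)
  loc a b g hg := by
    obtain ⟨u, h1, h2, h3⟩ := S.loc a b g hg
    exact ⟨un u ⟨h.A a h1, sup_le (h.A a) (h.A b) h2⟩, h1, comap_sup (h.A a) (h.A b) h2, h3⟩

theorem et_sys (h : Cl S Om) (a : ι) (het : (S.zh a).toRingHom.Etale) :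
    ((sys h).zh a).toRingHom.Etale := by
  let e : S.A a →ₐ[ℂ] (sys h).A a :=
    (Subalgebra.inclusion (h.A a)).codRestrict _ fun g => g.2
  have he : Function.Bijective e :=
    ⟨fun g g' e => Subtype.ext (congrArg (fun t => t.1.1) e), fun g => ⟨⟨g.1.1, g.2⟩, rfl⟩⟩
  have h2 : (sys h).zh a = e.comp (S.zh a) := by
    refine MvPolynomial.algHom_ext fun i => ?_
    simp only [Sys.zh, AlgHom.comp_apply, aeval_X]
    rfl
  rw [h2]
  exact RingHom.Etale.stableUnderComposition _ e.toRingHom het (RingHom.Etale.of_bijective he)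

theorem fg_of_et {Ω : Type} [CommRing Ω] [Algebra ℂ Ω] (T : Sys ℂ Ω ι J n) (a : ι)
    (het : (T.zh a).toRingHom.Etale) : (T.A a).FG := by
  rw [Subalgebra.fg_iff_finiteType, ← RingHom.finiteType_algebraMap, ← (T.zh a).comp_algebraMap]
  exact RingHom.FiniteType.comp (RingHom.FiniteType.of_finitePresentation
    (RingHom.Etale.iff_flat_and_formallyUnramified.1 het).2.2)
    (RingHom.finiteType_algebraMap.2 inferInstance)

variable [Fintype J]

theorem up_mon (h : Cl S Om) (c : ι) (w : J → ℤ) : up Om ((sys h).mon c w) = S.mon c w := by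
  simp only [Sys.mon, map_prod, map_zpow]
  rfl

omit [Fintype J] in
theorem isU_sys (h : Cl S Om) (c : ι) (u : Omˣ) (hu : S.IsU c (up Om u)) : (sys h).IsU c u := hu

theorem mon_mem (hη : ∀ a j, S.η a j ∈ UU Om) (c : ι) (w : J → ℤ) : S.mon c w ∈ UU Om :=
  prod_mem fun j _ => zpow_mem (hη c j) _

omit [Fintype J] in
theorem isU_mem (hA : ∀ a, S.A a ≤ Om) {c : ι} {u : Kˣ} (hu : S.IsU c u) : u ∈ UU Om :=
  ⟨hA c hu.1, hA c hu.2⟩

theorem mem_of_ord (h : Cl S Om) {c : ι} {u : Kˣ} {w : J → ℤ} (hu : S.IsU c (u * S.mon c w)) :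
    u ∈ UU Om :=
  (mul_mem_cancel_right (mon_mem h.η c w)).1 (isU_mem h.A hu)

theorem pol_sys (h : Cl S Om) {x : Fin m → K} {w : J → ℤ} {ρ : ι → Kˣ} (hP : S.Pol x w ρ)
    (hx : ∀ l, x l ∈ Om) :
    (sys h).Pol (fun l => ⟨x l, hx l⟩) w fun a => un (ρ a) (mem_of_ord h (hP.ord a)) where
  x_mem a l := hP.x_mem a l
  mem a b := by
    have h1 := hP.mem a b
    rw [← coe_div (mem_of_ord h (hP.ord a)) (mem_of_ord h (hP.ord b))] at h1
    exact h1
  loc a b g hg := by
    obtain ⟨e, he⟩ := hP.loc a b g hg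
    refine ⟨e, ?_⟩
    change ((_ * _ : Om) : K) ∈ S.A b
    rw [MulMemClass.coe_mul, coe_up, map_pow, map_div, up_un, up_un]
    exact he
  ord a := isU_sys h a _ (by
    rw [map_mul, up_un, up_mon]
    exact hP.ord a)
  int a g hg := by
    refine integral_of _ g ?_
    rw [Set.image_union, ← Set.range_comp, ← Set.range_comp]
    have e : (Om.val ∘ fun b => ((un (ρ b) (mem_of_ord h (hP.ord b)) /
        un (ρ a) (mem_of_ord h (hP.ord a)) : Omˣ) : Om)) = fun b => ((ρ b / ρ a : Kˣ) : K) :=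
      funext fun b => coe_div _ _
    rw [e]
    exact hP.int a g hg

/-- The ring generated by the charts and the inverses of the equations of the divisors. -/
noncomputable def om (S : Sys ℂ K ι J n) : Subalgebra ℂ K :=
  Algebra.adjoin ℂ ({g | ∃ a, g ∈ S.A a} ∪ {g | ∃ a j, g = (((S.η a j)⁻¹ : Kˣ) : K)})

variable {x : Fin m → K} {f : Kˣ} {a kk : J → ℕ} {b : Polynomial ℂ}

theorem R_mem (hA : ∀ a, S.A a ≤ Om) (hη : ∀ a j, S.η a j ∈ UU Om) (hM : MainK S x f a kk b)
    (c : ι) (l : Fin n) (g : K) (hg : g ∈ S.A c) : S.R l g ∈ Om := by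
  obtain ⟨U, hU, hd⟩ := hM.det c
  set M : Matrix (Fin n) (Fin n) K := Matrix.of fun l i => S.D c i (S.r l) with hMd
  let M' : Matrix (Fin n) (Fin n) Om :=
    Matrix.of fun l i => ⟨S.D c i (S.r l), hA c (S.D_mem c i _ (hM.r_mem c l))⟩
  have h1 : ∀ i l, M.adjugate i l ∈ Om := fun i l => by
    have e : M = Om.val.mapMatrix M' := rfl
    rw [e, ← AlgHom.map_adjugate]
    exact (M'.adjugate i l).2
  have h2 : Matrix.vecMul (fun l => S.R l g) M = fun i => S.D c i g := by
    funext i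
    rw [S.D_R c i g]
    simp only [Matrix.vecMul, dotProduct, hMd, Matrix.of_apply, mul_comm]
  have h3 : M.det * S.R l g = ∑ i, S.D c i g * M.adjugate i l := by
    have e := congrFun (Matrix.vecMul_vecMul (fun l => S.R l g) M M.adjugate) l
    rw [h2, Matrix.mul_adjugate, Matrix.vecMul_smul, Matrix.vecMul_one] at e
    exact e.symm
  have h4 : M.det * S.R l g ∈ Om := by
    rw [h3]
    exact sum_mem fun i _ => mul_mem (hA c (S.D_mem c i g hg)) (h1 i l)
  rw [hd] at h4
  exact cancel (mul_mem (isU_mem hA hU) (mon_mem hη c fun j => (kk j : ℤ))) h4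

theorem cl_om [Nonempty ι] (hM : MainK S x f a kk b) : Cl S (om S) := by
  have hA : ∀ a, S.A a ≤ om S := fun a g hg => Algebra.subset_adjoin (Or.inl ⟨a, hg⟩)
  have hη : ∀ a j, S.η a j ∈ UU (om S) := fun a j =>
    ⟨hA a (η_in S a j), Algebra.subset_adjoin (Or.inr ⟨a, j, rfl⟩)⟩
  have hR : ∀ l, ∀ g ∈ om S, S.R l g ∈ om S := fun l g hg => by
    induction hg using Algebra.adjoin_induction with
    | mem g hg =>
      rcases hg with ⟨c, hg⟩ | ⟨c, j, rfl⟩
      · exact R_mem hA hη hM c l g hg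
      · rw [Units.val_inv_eq_inv_val, Derivation.leibniz_inv, smul_eq_mul,
          ← Units.val_inv_eq_inv_val]
        exact mul_mem (neg_mem (pow_mem (inv_mem' (hη c j)) 2)) (R_mem hA hη hM c l _ (η_in S c j))
    | algebraMap t => rw [Derivation.map_algebraMap]; exact zero_mem _
    | add g g' _ _ h1 h2 => rw [map_add]; exact add_mem h1 h2
    | mul g g' hg hg' h1 h2 =>
      rw [Derivation.leibniz, smul_eq_mul, smul_eq_mul]
      exact add_mem (mul_mem hg h2) (mul_mem hg' h1)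
  refine ⟨hA, hη, fun l => hA (Classical.arbitrary ι) (hM.r_mem _ l), hR, fun c i g hg => ?_⟩
  rw [S.D_R]
  exact sum_mem fun l _ => mul_mem (hA c (S.D_mem c i _ (hM.r_mem c l))) (hR l g hg)

omit [Fintype J] in
theorem gen_om (h : Cl S (om S)) : Algebra.adjoin ℂ ({g | ∃ a, g ∈ (sys h).A a} ∪
    {g | ∃ a j, g = ((((sys h).η a j)⁻¹ : (om S)ˣ) : om S)}) = ⊤ := by
  refine top_le_iff.1 (Algebra.adjoin_adjoin_coe_preimage.ge.trans (Algebra.adjoin_mono ?_))
  rintro g (⟨c, hg⟩ | ⟨c, j, hg⟩)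
  · exact Or.inl ⟨c, hg⟩
  · exact Or.inr ⟨c, j, Subtype.ext hg⟩

omit [Fintype J] in
theorem map_th (h : Cl S Om) (hx : ∀ l, x l ∈ Om) (hf : f ∈ UU Om) (l : Fin n) :
    map (Om.val : Om →+* K) ((sys h).th (fun l => ⟨x l, hx l⟩) (un f hf) l) = S.th x f l := by
  simp only [Sys.th, map_add, map_sum, map_mul, map_X, map_C]
  rfl

theorem mainIn [Nonempty ι] (hM : MainK S x f a kk b) (h : Cl S (om S)) (hx : ∀ l, x l ∈ om S)
    (hf : f ∈ UU (om S)) : (sys h).MainIn (fun l => ⟨x l, hx l⟩) (un f hf) a kk b where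
  good := ⟨fun c => fg_of_et _ c (et_sys h c (hM.et c)), fun c => et_sys h c (hM.et c), gen_om h⟩
  r_mem := hM.r_mem
  f_ord c := isU_sys h c _ (by
    rw [map_mul, up_un, up_mon]
    exact hM.f_ord c)
  det c := by
    obtain ⟨U, hU, hd⟩ := hM.det c
    refine ⟨un U (isU_mem h.A hU), hU, Subtype.ext ?_⟩
    rw [coe_up, map_mul, up_un, up_mon, ← hd]
    exact (om S).val.map_det _
  bs := by
    obtain ⟨u, β, Q, h1, h2, h3⟩ := hM.bs
    have c0 := Classical.arbitrary ι
    have hβ : ∀ l e, coeff e (β l) ∈ om S := fun l e =>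
      cancel (pow_mem hf u) (h.A c0 (h1 c0 l e))
    choose β' hβ' using fun l => exists_lift (β l) (hβ l)
    obtain ⟨Q', rfl⟩ := exists_lift Q fun e => h.A c0 (h2 c0 e)
    refine ⟨u, β', Q', fun c l e => ?_, fun c e => ?_,
      map_injective ((om S).val : om S →+* K) Subtype.val_injective ?_⟩
    · have h4 := h1 c l e
      rw [← hβ' l, coeff_map] at h4
      exact h4
    · have h4 := h2 c e
      rw [coeff_map] at h4
      exact h4
    · rw [← mapAlgHom_apply, ← Polynomial.aeval_algHom_apply, mapAlgHom_apply, map_X, h3]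
      simp only [map_add, map_sum, map_mul, map_C, map_th, hβ']
      refine congrArg₂ _ rfl (Finset.sum_congr rfl fun l _ => congrArg₂ _ ?_ rfl)
      rw [← hβ' l]
      exact (map_dpol _ (h.R l) _).symm

end RESA

open RESA in
theorem rowRES : SRes := by
  intro hS K ι J n m _ _ _ _ _ S x f a kk b w ρ μ I la c0 hM hP hμ h1 h2 h3 h4 h5
  have h := cl_om hM
  have hx : ∀ l, x l ∈ om S := fun l => h.A c0 (hP.x_mem c0 l)
  refine hS (om S) ι J n m (sys h) _ _ a kk b w _ μ I la c0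
    (mainIn hM h hx (mem_of_ord h (hM.f_ord c0))) (pol_sys h hP hx) hμ h1 h2 h3 h4 ?_
  rintro ⟨t, ht, e⟩
  refine h5 ⟨fun i => t i, ht, ?_⟩
  have e2 := congrArg Subtype.val e
  rw [AddSubmonoidClass.coe_finsetSum] at e2
  exact e2

end Pool.Agent.MP_ee8c61_ag.H95G
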