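import Pool.Agent.MP_ee8c61_ag.H95G.Spec

/-! The theorem for local rings in a field, from the theorem for systems of charts. -/

namespace Pool.Agent.MP_ee8c61_ag.H95G

open H59 MvPolynomial

namespace ABSA

variable {K Y J ι : Type} {N : ℕ} [Field K] [Algebra ℂ K]

theorem et_congr {A A' : Subalgebra ℂ K} {z z' : Fin N → K} (hA : A = A') (hz : z = z')
    (h : ∀ i, z i ∈ A) (h' : ∀ i, z' i ∈ A')
    (e : (aeval fun i => (⟨z' i, h' i⟩ : A') : Po N →ₐ[ℂ] A').toRingHom.Etale) :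
    (aeval fun i => (⟨z i, h i⟩ : A) : Po N →ₐ[ℂ] A).toRingHom.Etale := by
  subst hA hz
  exact e

variable {S : Sys ℂ K ι J N} {G : Geo K Y} {x : Fin N → K} {C : ι → Cht K Y J N} {U : ι → Set Y}

theorem isU (h : Fit S G x C U) (c : ι) (u : Kˣ) (hu : ∀ y ∈ U c, G.Un y (u : K)) :
    S.IsU c u := by
  unfold Sys.IsU
  rw [h.A, Units.val_inv_eq_inv_val]
  exact ⟨Geo.mem_A.2 fun y hy => (hu y hy).2.1, Geo.mem_A.2 fun y hy => (hu y hy).2.2⟩

variable [Fintype J]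

theorem mon_nat (h : Fit S G x C U) (c : ι) (a : J → ℕ) :
    ((S.mon c fun j => (a j : ℤ) : Kˣ) : K) = (C c).mon a := by
  simp only [Sys.mon, Cht.mon, zpow_natCast, Units.coe_prod, Units.val_pow_eq_pow_val, h.η]

theorem mon_neg (h : Fit S G x C U) (c : ι) (a : J → ℕ) :
    ((S.mon c fun j => -(a j : ℤ) : Kˣ) : K) = ((C c).mon a)⁻¹ := by
  rw [← mon_nat h, ← Units.val_inv_eq_inv_val]
  simp only [Sys.mon, zpow_neg, Finset.prod_inv_distrib]

end ABSA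

open ABSA in
theorem rowABS : SAbs := by
  intro hCov hSys hPol hOrd hBs hMain K Y J J' N r M _ _ _ _ _ G x f b q E E' a k n k' e μ τ W la y₀
    hG hV hx hb hR hR' he hE hAf hμ hle heq hla hy
  classical
  have gens : ∀ y, ∃ j, G.Gn (fun j => aeval x (f j)) j y ∧ aeval x (f j) ≠ 0 := fun y => by
    obtain ⟨C, h1, h2⟩ := hR y
    obtain ⟨j, hj⟩ := h2.exists_un hG h1
    exact ⟨j, (h2.gn_iff hG h1 j).2 hj, fun h0 => hj.1 (by simp [h0])⟩
  obtain ⟨j₀, hg, hne⟩ := gens y₀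
  obtain ⟨ι, _, C, U, i, g, d, cov⟩ :=
    hCov K Y J' _ _ N G x q E' n k' (fun j => aeval x (f j)) j₀ hG hR' hAf hne
  obtain ⟨c0, hc0⟩ := (cov.cov y₀).1 hg
  have : Nonempty ι := ⟨c0⟩
  obtain ⟨S, fit⟩ := hSys K Y J' _ _ ι N G x q E' n k' _ j₀ C U i g d hG cov
  obtain ⟨a', ha, ha0⟩ : ∃ a' : J' → ℕ, (∀ j, a' (e j) = a j) ∧ ∀ j', j' ∉ Set.range e → a' j' = 0 :=
    ⟨Function.extend e a 0, he.extend_apply a 0, fun j' h => Function.extend_apply' a (0 : J' → ℕ) j' h⟩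
  have hord : ∀ c, ∀ y ∈ U c, G.Un y (aeval x (f j₀) / (C c).mon a') := fun c y hy =>
    hOrd K Y J J' _ _ N G x _ q E E' a k a' n k' e (C c) j₀ y hG hR (cov.ch c) he
      (fun j => (hE j).1) ha ha0 (cov.sub c hy) ((cov.cov y).2 ⟨c, hy⟩)
  obtain ⟨ρ, pol⟩ := hPol K Y J' _ ι N r G x q E' a' n k' _ j₀ C U i g d τ S hG hV hx cov fit
    (fun y => (gens y).imp fun _ h => h.1) hord
  have hxA : ∀ c l, x l ∈ S.A c := fun c l => by
    rw [fit.A]; exact Geo.mem_A.2 fun y _ => hx y l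
  have hd : (0 : ℤ) ≤ d := Int.natCast_nonneg d
  rw [← Finset.card_map ⟨e, he⟩]
  refine hMain K ι J' N (N + r) S _ (Units.mk0 _ hne) a' k' b _ ρ (d * μ) (W.map ⟨e, he⟩) la c0
    ⟨fun c => ?_, fun c l => ?_, fun c => ?_, fun c => ?_, ?_⟩ pol (Nat.mul_pos cov.pos hμ)
    (fun j' => ?_) (fun j' h0 => ?_) (fun j' hj => ?_) (fun j' hj => ?_) ?_
  · exact et_congr (fit.A c) (fit.z c) _ (fun l => Geo.A_anti (cov.sub c) ((cov.ch c).zm l))
      ((cov.ch c).et (U c) (cov.sub c) (cov.af c) (cov.ne c) _)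
  · rw [fit.r]; exact hxA c l
  · refine isU fit c _ fun y hy => ?_
    rw [Units.val_mul, mon_neg fit, Units.val_mk0, ← div_eq_mul_inv]
    exact hord c y hy
  · obtain ⟨u, hu, h⟩ := (cov.ch c).det
    obtain ⟨y, hy⟩ := cov.ne c
    refine ⟨Units.mk0 u (hu y (cov.sub c hy)).1, isU fit c _ fun y hy => hu y (cov.sub c hy), ?_⟩
    rw [Units.val_mul, mon_nat fit, Units.val_mk0, fit.D, fit.r]
    exact h
  · obtain ⟨u, β, Q, h1, h2, h3⟩ := hBs K N r x f b j₀ S.R (⨅ c, S.A c) hb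
      (by rw [← fit.r]; exact S.R_r) hne (fun l => Algebra.mem_iInf.2 fun c => hxA c l)
      fun j => Algebra.mem_iInf.2 fun c => by
        simpa only [Fin.append_right] using pol.x_mem c (Fin.natAdd N j)
    exact ⟨u, β, Q, fun c l e => Algebra.mem_iInf.1 (h1 l e) c,
      fun c e => Algebra.mem_iInf.1 (h2 e) c, h3⟩
  · push_cast
    rw [mul_assoc]
    refine mul_le_mul_of_nonneg_left ?_ hd
    by_cases h : j' ∈ Set.range e
    · obtain ⟨j, rfl⟩ := h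
      have h1 : ((τ * a j : ℕ) : ℤ) ≤ (n (e j) + μ * (k j + 1) : ℕ) := by exact_mod_cast hle j
      push_cast at h1
      rw [ha, (hE j).2]
      linarith
    · rw [ha0 j' h]
      have h1 : (0 : ℤ) ≤ μ * (k' j' + 1) := by positivity
      have h2 := Int.natCast_nonneg (n j')
      push_cast
      linarith
  · rw [h0]
    exact mul_nonpos_of_nonneg_of_nonpos hd (by simp)
  · obtain ⟨j, hW, rfl⟩ := Finset.mem_map.1 hj
    have h1 : ((τ * a j : ℕ) : ℤ) = (n (e j) + μ * (k j + 1) : ℕ) := by exact_mod_cast heq j hW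
    push_cast at h1 ⊢
    rw [Function.Embedding.coeFn_mk, ha, (hE j).2, h1]
    ring
  · obtain ⟨j, hW, rfl⟩ := Finset.mem_map.1 hj
    rw [Function.Embedding.coeFn_mk, ha, (hE j).2]
    exact hla j hW
  · rintro ⟨h, h1, h2⟩
    have h3 : ∀ j, h j ∈ G.O y₀ := fun j => Geo.mem_A.1 (fit.A c0 ▸ h1 j) y₀ hc0
    have h4 : ∀ j, (S.η c0 j : K) ∈ G.O y₀ := fun j => by
      rw [fit.η]; exact Geo.mem_A.1 ((cov.ch c0).η_mem j) y₀ (cov.sub c0 hc0)
    obtain ⟨j', hj, h5⟩ := hG.sum (y := y₀) _ (fun j _ => mul_mem (h4 j) (h3 j))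
      (h2 ▸ Geo.un_one)
    obtain ⟨j, hW, rfl⟩ := Finset.mem_map.1 hj
    have h6 := h5.of_mul (h4 _) (h3 _)
    rw [fit.η] at h6
    exact ((cov.ch c0).mem (e j) y₀ (cov.sub c0 hc0)).1 ((hE j).1 ▸ hy j hW) h6

end Pool.Agent.MP_ee8c61_ag.H95G
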