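import Pool.Agent.MP_ee8c61_ag.H95G.Spec

/-! Integration by parts in the functional equation. -/

namespace Pool.Agent.MP_ee8c61_ag.H95G

open H59 MvPolynomial Finset

namespace BSA

variable {K κ κ' : Type} [Field K] [Algebra ℂ K]

theorem stab (D : Derivation ℂ K K) {S : Set K} (h : ∀ s ∈ S, D s ∈ Algebra.adjoin ℂ S) :
    ∀ g ∈ Algebra.adjoin ℂ S, D g ∈ Algebra.adjoin ℂ S := fun g hg => by
  induction hg using Algebra.adjoin_induction with
  | mem s hs => exact h s hs
  | algebraMap c => rw [D.map_algebraMap]; exact zero_mem _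
  | add a b _ _ h1 h2 => rw [map_add]; exact add_mem h1 h2
  | mul a b ha hb h1 h2 => rw [D.leibniz]; exact add_mem (mul_mem ha h2) (mul_mem hb h1)

theorem mono_mem {A : Subalgebra ℂ K} (e : κ →₀ ℕ) {c : K} (h : c ∈ A) :
    monomial e c ∈ spol κ A := fun e' => by
  classical
  rw [coeff_monomial]
  split_ifs
  · exact h
  · exact zero_mem _

theorem X_mem (A : Subalgebra ℂ K) (i : κ) : X i ∈ spol κ A := mono_mem _ (one_mem A)

theorem ren_mem {A : Subalgebra ℂ K} (ρ : κ → κ') {H : MvPolynomial κ K} (h : H ∈ spol κ A) :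
    rename ρ H ∈ spol κ' A := by
  rw [H.as_sum, map_sum]
  exact sum_mem fun e _ => by rw [rename_monomial]; exact mono_mem _ (h e)

theorem dpol_X (D : Derivation ℂ K K) (i : κ) : dpol κ D (X i) = 0 := by
  classical
  ext e
  rw [coeff_dpol, coeff_X]
  split_ifs <;> simp

theorem ren_dpol (D : Derivation ℂ K K) (ρ : κ → κ') (H : MvPolynomial κ K) :
    rename ρ (dpol κ D H) = dpol κ' D (rename ρ H) := by
  induction H using MvPolynomial.induction_on with
  | C a => rw [dpol_C, rename_C, rename_C, dpol_C]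
  | add p q h1 h2 => simp only [map_add, h1, h2]
  | mul_X p i h => simp [Derivation.leibniz, dpol_X, h]

theorem expo {A : Subalgebra ℂ K} {F : K} (hF : F ∈ A) (h0 : F ≠ 0) {S : Set K} (hS : S ⊆ A) :
    ∀ g ∈ Algebra.adjoin ℂ (insert F⁻¹ S), ∃ u : ℕ, ∀ U, u ≤ U → F ^ U * g ∈ A := fun g hg => by
  induction hg using Algebra.adjoin_induction with
  | mem s hs =>
    rcases hs with rfl | hs
    · refine ⟨1, fun U hU => ?_⟩
      obtain ⟨k, rfl⟩ := Nat.exists_eq_add_of_le' hU
      rw [pow_succ, mul_inv_cancel_right₀ h0]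
      exact pow_mem hF k
    · exact ⟨0, fun U _ => mul_mem (pow_mem hF U) (hS hs)⟩
  | algebraMap c => exact ⟨0, fun U _ => mul_mem (pow_mem hF U) (A.algebraMap_mem c)⟩
  | add a b _ _ h1 h2 =>
    obtain ⟨u, h1⟩ := h1
    obtain ⟨u', h2⟩ := h2
    exact ⟨u + u', fun U hU => mul_add (F ^ U) a b ▸ add_mem (h1 U (by omega)) (h2 U (by omega))⟩
  | mul a b _ _ h1 h2 =>
    obtain ⟨u, h1⟩ := h1
    obtain ⟨u', h2⟩ := h2
    refine ⟨u + u', fun U hU => ?_⟩
    rw [show U = u + (U - u) by omega, pow_add, mul_mul_mul_comm]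
    exact mul_mem (h1 u le_rfl) (h2 _ (by omega))

variable {N : ℕ} (R : Fin N → Derivation ℂ K K) (th ξ : Fin N → MvPolynomial κ K) (F : K)
  (A A₁ : Subalgebra ℂ K)

/-- the sums of a multiple of `F` and of twisted derivatives -/
noncomputable def Gp : AddSubgroup (MvPolynomial κ K) where
  carrier := {H | ∃ (β : Fin N → MvPolynomial κ K) (Q : MvPolynomial κ K),
    (∀ l, β l ∈ spol κ A₁) ∧ Q ∈ spol κ A ∧
      H = C F * Q + ∑ l, (dpol κ (R l) (β l) + th l * β l)}
  zero_mem' := ⟨0, 0, fun _ => zero_mem _, zero_mem _, by simp⟩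
  add_mem' := by
    rintro _ _ ⟨β, Q, h1, h2, rfl⟩ ⟨β', Q', h3, h4, rfl⟩
    refine ⟨β + β', Q + Q', fun l => add_mem (h1 l) (h3 l), add_mem h2 h4, ?_⟩
    simp only [Pi.add_apply, map_add, mul_add, sum_add_distrib]
    ring
  neg_mem' := by
    rintro _ ⟨β, Q, h1, h2, rfl⟩
    refine ⟨-β, -Q, fun l => neg_mem (h1 l), neg_mem h2, ?_⟩
    simp only [Pi.neg_apply, map_neg, mul_neg, sum_add_distrib, sum_neg_distrib]
    ring

theorem parts {B : Subalgebra ℂ K} (h1 : B ≤ A) (h2 : B ≤ A₁) (h3 : ∀ l, ∀ g ∈ B, R l g ∈ B)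
    (h4 : ∀ l, ∀ g ∈ A₁, R l g ∈ A₁) (h5 : ∀ l, th l ∈ spol κ A₁) (h6 : ∀ l, ξ l ∈ spol κ B)
    (hF : F ∈ B) {Q : MvPolynomial κ K} (hQ : Q ∈ spol κ (A ⊓ A₁)) (L : List (Fin N)) :
    L.foldr (fun l H => dpol κ (R l) H + th l * H - ξ l * H) (C F * Q) ∈ spol κ A₁ ∧
    ∀ q ∈ spol κ B, q * L.foldr (fun l H => dpol κ (R l) H + th l * H - ξ l * H) (C F * Q) ∈
      Gp R th F A A₁ := by
  induction L with
  | nil =>
    exact ⟨mul_mem (C_mem_spol (h2 hF)) fun e => (hQ e).2, fun q hq => ⟨0, q * Q,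
      fun _ => zero_mem _, mul_mem (fun e => h1 (hq e)) fun e => (hQ e).1, by simp; ring⟩⟩
  | cons l L ih =>
    rw [List.foldr_cons]
    generalize L.foldr _ _ = H at ih ⊢
    refine ⟨sub_mem (add_mem (fun e => coeff_dpol (R l) H e ▸ h4 l _ (ih.1 e)) (mul_mem (h5 l) ih.1))
      (mul_mem (fun e => h2 (h6 l e)) ih.1), fun q hq => ?_⟩
    have e : q * (dpol κ (R l) H + th l * H - ξ l * H) =
        dpol κ (R l) (q * H) + th l * (q * H) - (dpol κ (R l) q + ξ l * q) * H := by
      rw [Derivation.leibniz, smul_eq_mul, smul_eq_mul]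
      ring
    rw [e]
    refine sub_mem ⟨Pi.single l (q * H), 0, fun l' => ?_, zero_mem _, ?_⟩ (ih.2 _ (add_mem
      (fun e => coeff_dpol (R l) q e ▸ h3 l _ (hq e)) (mul_mem (h6 l) hq)))
    · rw [Pi.single_apply]
      split_ifs
      · exact mul_mem (fun e => h2 (hq e)) ih.1
      · exact zero_mem _
    · rw [sum_eq_single l (fun l' _ h => by simp [Pi.single_eq_of_ne h]) (by simp)]
      simp

end BSA

open BSA in
theorem rowBS : SBs := by
  intro h2 K _ _ N r x f b j₀ R A hb hR h0 hx hv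
  have hp : ∀ p : Po N, aeval x p ∈ Algebra.adjoin ℂ (Set.range x) := fun p => by
    rw [Algebra.adjoin_range_eq_range_aeval]; exact ⟨p, rfl⟩
  have h := h2 K N r x f b j₀ R
  have hF := hp (f j₀)
  have hf := fun j => hp (f j)
  generalize hw : (fun j => aeval x (f j) / aeval x (f j₀)) = v at *
  have hw' : ∀ j, aeval x (f j) / aeval x (f j₀) = v j := congrFun hw
  simp only [hw'] at h hv
  have v0 : v j₀ = 1 := by rw [← hw', div_self h0]
  generalize aeval x (f j₀) = F at *
  have b1 : Algebra.adjoin ℂ (Set.range x) ≤ A := Algebra.adjoin_le (Set.range_subset_iff.2 hx)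
  have b2 : Algebra.adjoin ℂ (Set.range x) ≤ Algebra.adjoin ℂ (insert F⁻¹ (Set.range x)) :=
    Algebra.adjoin_mono (Set.subset_insert _ _)
  have b3 : F⁻¹ ∈ Algebra.adjoin ℂ (insert F⁻¹ (Set.range x)) :=
    Algebra.subset_adjoin (Set.mem_insert _ _)
  have b4 : ∀ j, v j ∈ Algebra.adjoin ℂ (insert F⁻¹ (Set.range x)) := fun j => by
    rw [← hw', div_eq_mul_inv]; exact mul_mem (b2 (hf j)) b3
  have s1 : ∀ l, ∀ g ∈ Algebra.adjoin ℂ (Set.range x), R l g ∈ Algebra.adjoin ℂ (Set.range x) :=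
    fun l => stab _ (by
      rintro _ ⟨j, rfl⟩
      rw [hR]
      split_ifs
      · exact one_mem _
      · exact zero_mem _)
  have s2 := fun l => stab (R l) (S := insert F⁻¹ (Set.range x)) (by
    rintro _ (rfl | hs)
    · rw [Derivation.leibniz_inv, smul_eq_mul]
      exact mul_mem (neg_mem (pow_mem b3 2)) (b2 (s1 l F hF))
    · exact b2 (s1 l _ (Algebra.subset_adjoin hs)))
  let ρ : Option {j // j ≠ j₀} → Option (Fin (N + r)) := Option.map fun j => Fin.natAdd N j.1
  let th : Fin N → PX (N + r) K := fun l =>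
    ∑ i, X (some i) * C (R l ((Fin.append x v : Fin (N + r) → K) i)) + X none * C (F⁻¹ * R l F)
  have t1 : ∀ l, th l ∈ spol _ (Algebra.adjoin ℂ (insert F⁻¹ (Set.range x))) := fun l =>
    add_mem (sum_mem fun i _ => mul_mem (X_mem _ _) (C_mem_spol (s2 l _ (by
      refine Fin.addCases (fun i => ?_) (fun j => ?_) i
      · rw [Fin.append_left]; exact b2 (Algebra.subset_adjoin ⟨i, rfl⟩)
      · rw [Fin.append_right]; exact b4 j))))
      (mul_mem (X_mem _ _) (C_mem_spol (mul_mem b3 (b2 (s1 l F hF)))))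
  have t2 : ∀ l H, rename ρ (nb (fun j : {j // j ≠ j₀} => v j) F (R l) H) =
      dpol _ (R l) (rename ρ H) + th l * rename ρ H - X (some (Fin.castAdd r l)) * rename ρ H := by
    intro l H
    simp only [nb, th, map_add, map_mul, map_sum, rename_X, rename_C, ren_dpol, Fin.sum_univ_add,
      Fin.append_left, Fin.append_right, hR, apply_ite (C (σ := Option (Fin (N + r)))), map_one,
      map_zero, mul_ite, mul_one, mul_zero, sum_ite_eq, mem_univ, if_true, ρ, Option.map_some,
      Option.map_none]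
    rw [Fintype.sum_eq_add_sum_subtype_ne _ j₀, v0, Derivation.map_one_eq_zero, map_zero]
    ring
  obtain ⟨β, Q, q1, q2, q3⟩ := (AddSubgroup.closure_le ((Gp R th F A
    (Algebra.adjoin ℂ (insert F⁻¹ (Set.range x)))).comap (rename ρ).toRingHom.toAddMonoidHom)).2 (by
      rintro _ ⟨p, L, Q, hQ, rfl⟩
      have := (parts R th (fun l => X (some (Fin.castAdd r l))) F A _ b1 b2 s1 s2 t1
        (fun l => X_mem _ _) hF (ren_mem ρ hQ) L).2 _ (C_mem_spol (hp p))
      change rename ρ _ ∈ Gp R th F A _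
      convert this using 1
      rw [map_mul, rename_C]
      congr 1
      clear this
      induction L with
      | nil => simp
      | cons l L ih => rw [List.foldr_cons, List.foldr_cons, t2, ih])
    (h (A ⊓ Algebra.adjoin ℂ (insert F⁻¹ (Set.range x))) hb hR h0 fun j => ⟨hv j, b4 j⟩)
  choose u hu using fun l e => expo (b1 hF) h0 (Set.range_subset_iff.2 hx) _ (q1 l e)
  refine ⟨univ.sup fun l => (β l).support.sup (u l), β, Q, fun l e => ?_, q2, Eq.trans ?_ q3⟩
  · by_cases he : e ∈ (β l).support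
    · exact hu l e _ ((le_sup he).trans (le_sup (f := fun l => (β l).support.sup (u l)) (mem_univ l)))
    · rw [notMem_support_iff.1 he, mul_zero]
      exact zero_mem _
  · simpa [ρ] using Polynomial.aeval_algHom_apply
      ((rename ρ : _ →ₐ[K] PX (N + r) K).restrictScalars ℂ) (X none) b

end Pool.Agent.MP_ee8c61_ag.H95G
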