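import Pool.Agent.MP_ee8c61_ag.H95G.Spec

/-! The functional equation for the generating function. -/

namespace Pool.Agent.MP_ee8c61_ag.H95G

open H59 MvPolynomial

namespace BS2A

variable {K : Type} [Field K] [Algebra ℂ K] {N r : ℕ}

theorem der {x : Fin N → K} {R : Fin N → Derivation ℂ K K}
    (hR : ∀ i j, R i (x j) = if i = j then 1 else 0) (l : Fin N) (p : Po N) :
    R l (aeval x p) = aeval x (pderiv l p) := by
  induction p using MvPolynomial.induction_on with
  | C a => simp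
  | add p q hp hq => simp [hp, hq]
  | mul_X p i hp =>
    rw [map_mul, aeval_X, Derivation.leibniz, Derivation.leibniz, hp, hR, pderiv_X]
    by_cases h : l = i
    · simp [h]
    · simp [h, Ne.symm h]

theorem ders {x : Fin N → K} {R : Fin N → Derivation ℂ K K}
    (hR : ∀ i j, R i (x j) = if i = j then 1 else 0) (L : List (Fin N)) (a : ℂ) (p : Po N) :
    L.foldr (fun l g => R l g) (algebraMap ℂ K a * aeval x p) =
      algebraMap ℂ K a * aeval x (L.foldr (fun i h => pderiv i h) p) := by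
  induction L with
  | nil => rfl
  | cons l L ih =>
    rw [List.foldr_cons, List.foldr_cons, ih, ← Algebra.smul_def, Derivation.map_smul, der hR,
      Algebra.smul_def]

section
variable {κ : Type} {A : Subalgebra ℂ K}

theorem mon_mem (e : κ →₀ ℕ) {g : K} (h : g ∈ A) : monomial e g ∈ spol κ A := fun e' => by
  classical
  rw [coeff_monomial]
  split_ifs
  · exact h
  · exact zero_mem _

theorem X_mem (i : κ) : (X i : MvPolynomial κ K) ∈ spol κ A := mon_mem _ (one_mem _)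

theorem pd_mem (i : κ) {Q : MvPolynomial κ K} (h : Q ∈ spol κ A) : pderiv i Q ∈ spol κ A :=
  fun e => by
    rw [coeff_pderiv]
    exact mul_mem (h _) (add_mem (natCast_mem _ _) (one_mem _))

variable [Fintype κ] {v : κ → K} {F : K}

omit [Algebra ℂ K] in
theorem phi_C (σ : ℕ) (t : κ → ℕ) (a : K) (H : MvPolynomial (Option κ) K) :
    Phi v F σ t (C a * H) = a * Phi v F σ t H := by rw [C_mul', map_smul, smul_eq_mul]

theorem phi_nb (h : PhiOK v F) (R : Fin N → Derivation ℂ K K) (σ : ℕ) (t : κ → ℕ)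
    (L : List (Fin N)) (H : MvPolynomial (Option κ) K) :
    Phi v F σ t (L.foldr (fun l H => nb v F (R l) H) H) =
      L.foldr (fun l g => R l g) (Phi v F σ t H) := by
  induction L with
  | nil => rfl
  | cons l L ih => rw [List.foldr_cons, List.foldr_cons, h.nab, ih]

theorem phi_b (h : PhiOK v F) (σ : ℕ) (t : κ → ℕ) (b : Polynomial ℂ) :
    Phi v F σ t (Polynomial.aeval (X none : MvPolynomial (Option κ) K) b) =
      algebraMap ℂ K (b.eval (σ : ℂ)) * (F ^ σ * ∏ j, v j ^ t j) := by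
  have h1 : ∀ n : ℕ, Phi v F σ t (X none ^ n) = σ ^ n * (F ^ σ * ∏ j, v j ^ t j) := fun n => by
    induction n with
    | zero => simpa using Phi_monomial v F σ t 0 1
    | succ n ih => rw [pow_succ', h.s, ih, pow_succ', mul_assoc]
  induction b using Polynomial.induction_on' with
  | add p q hp hq => rw [map_add, map_add, hp, hq, Polynomial.eval_add, map_add, add_mul]
  | monomial n a =>
    rw [Polynomial.aeval_monomial, MvPolynomial.algebraMap_apply, phi_C, h1,
      Polynomial.eval_monomial, map_mul, map_pow, map_natCast, mul_assoc]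

end

variable {j₀ : Fin r} {φ : Fin r → K} {A : Subalgebra ℂ K}

/-- the functional at `s` -/
noncomputable abbrev Ph (φ : Fin r → K) (j₀ : Fin r) (s : Fin r → ℕ) :
    MvPolynomial (Option {j // j ≠ j₀}) K →ₗ[K] K :=
  Phi (fun j : {j // j ≠ j₀} => φ j / φ j₀) (φ j₀) (∑ j, s j) fun j => s j

omit [Algebra ℂ K] in
theorem prod_eq (h0 : φ j₀ ≠ 0) (m : Fin r → ℕ) :
    φ j₀ ^ (∑ j, m j) * ∏ j : {j // j ≠ j₀}, (φ j / φ j₀) ^ m j = ∏ j, φ j ^ m j := by
  rw [← Finset.prod_pow_eq_pow_sum, Fintype.prod_eq_mul_prod_subtype_ne _ j₀,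
    Fintype.prod_eq_mul_prod_subtype_ne (fun j => φ j ^ m j) j₀, mul_assoc,
    ← Finset.prod_mul_distrib]
  refine congrArg _ (Finset.prod_congr rfl fun j _ => ?_)
  rw [← mul_pow, mul_div_cancel₀ _ h0]

theorem mulX (h : PhiOK (fun j : {j // j ≠ j₀} => φ j / φ j₀) (φ j₀))
    (hA : ∀ j, φ j / φ j₀ ∈ A) (j : Fin r) {Q : MvPolynomial (Option {j // j ≠ j₀}) K}
    (hQ : Q ∈ spol _ A) : ∃ Q' ∈ spol _ A, ∀ s, Ph φ j₀ s Q' = s j * Ph φ j₀ s Q := by
  have hm : ∀ i : {j // j ≠ j₀}, X (some i) * pderiv (some i) Q +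
      X (some i) * C (φ i / φ j₀) * Q ∈ spol _ A := fun i =>
    add_mem (mul_mem (X_mem _) (pd_mem _ hQ)) (mul_mem (mul_mem (X_mem _) (C_mem_spol (hA i))) hQ)
  by_cases hj : j = j₀
  · refine ⟨X none * Q - ∑ i : {j // j ≠ j₀}, (X (some i) * pderiv (some i) Q +
      X (some i) * C (φ i / φ j₀) * Q), sub_mem (mul_mem (X_mem _) hQ) (sum_mem fun i _ => hm i),
      fun s => ?_⟩
    rw [map_sub, map_sum, h.s, Finset.sum_congr rfl fun i _ => h.xi _ _ i Q, ← Finset.sum_mul,
      ← sub_mul, hj]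
    refine congrArg (· * _) ?_
    rw [Fintype.sum_eq_add_sum_subtype_ne s j₀]
    push_cast
    ring
  · exact ⟨_, hm ⟨j, hj⟩, fun s => h.xi _ _ ⟨j, hj⟩ Q⟩

theorem mulP (h : PhiOK (fun j : {j // j ≠ j₀} => φ j / φ j₀) (φ j₀))
    (hA : ∀ j, φ j / φ j₀ ∈ A) (c : MvPolynomial (Fin r) ℂ)
    {Q : MvPolynomial (Option {j // j ≠ j₀}) K} (hQ : Q ∈ spol _ A) : ∃ Q' ∈ spol _ A, ∀ s,
      Ph φ j₀ s Q' = algebraMap ℂ K (eval (fun j => (s j : ℂ)) c) * Ph φ j₀ s Q := by
  induction c using MvPolynomial.induction_on with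
  | C a => exact ⟨C (algebraMap ℂ K a) * Q, mul_mem (C_mem_spol (A.algebraMap_mem a)) hQ,
      fun s => by rw [phi_C, eval_C]⟩
  | add p q hp hq =>
    obtain ⟨Q₁, h1, e1⟩ := hp
    obtain ⟨Q₂, h2, e2⟩ := hq
    exact ⟨Q₁ + Q₂, add_mem h1 h2, fun s => by rw [map_add, e1, e2, map_add, map_add, add_mul]⟩
  | mul_X p j hp =>
    obtain ⟨Q₁, h1, e1⟩ := hp
    obtain ⟨Q₂, h2, e2⟩ := mulX h hA j h1
    exact ⟨Q₂, h2, fun s => by rw [e2, e1, map_mul, eval_X, map_mul, map_natCast]; ring⟩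

theorem base (h : PhiOK (fun j : {j // j ≠ j₀} => φ j / φ j₀) (φ j₀)) (h0 : φ j₀ ≠ 0)
    (hA : ∀ j, φ j / φ j₀ ∈ A) (c : Fin r → ℤ) (hc : ∑ j, c j = 1) : ∃ Q ∈ spol _ A, ∀ s,
      φ j₀ * Ph φ j₀ s Q = algebraMap ℂ K (∏ j, ((s j).choose (-c j).toNat : ℂ)) *
        ∏ j, φ j ^ ((s j : ℤ) + c j).toNat := by
  obtain ⟨Q, hQ, e⟩ := mulP h hA (C (∏ j, ((-c j).toNat.factorial : ℂ)⁻¹) *
    Polynomial.aeval (X j₀) (descPochhammer ℂ (-c j₀).toNat))
    (mon_mem (Finsupp.equivFunOnFinite.symm fun o : Option {j // j ≠ j₀} =>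
      o.elim 0 fun j => (-c j).toNat)
      (prod_mem fun (j : {j // j ≠ j₀}) (_ : j ∈ Finset.univ) => pow_mem (hA j) (c j).toNat))
  refine ⟨Q, hQ, fun s => ?_⟩
  have e1 : eval (fun j => (s j : ℂ)) (Polynomial.aeval (X j₀) (descPochhammer ℂ (-c j₀).toNat)) =
      (s j₀).descFactorial (-c j₀).toNat := by
    have := Polynomial.aeval_algHom_apply (aeval fun j => (s j : ℂ)) (X j₀ : MvPolynomial _ ℂ)
      (descPochhammer ℂ (-c j₀).toNat)
    rw [aeval_X, Polynomial.coe_aeval_eq_eval, descPochhammer_eval_eq_descFactorial] at this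
    exact this.symm
  have e2 : ∏ j, ((s j).choose (-c j).toNat : ℂ) = (∏ j, ((-c j).toNat.factorial : ℂ)⁻¹) *
      ∏ j, ((s j).descFactorial (-c j).toNat : ℂ) := by
    rw [← Finset.prod_mul_distrib]
    refine Finset.prod_congr rfl fun j _ => ?_
    rw [Nat.descFactorial_eq_factorial_mul_choose, Nat.cast_mul,
      inv_mul_cancel_left₀ (by exact_mod_cast Nat.factorial_ne_zero _)]
  have e3 : φ j₀ * Ph φ j₀ s Q = algebraMap ℂ K (∏ j, ((s j).choose (-c j).toNat : ℂ)) *
      (φ j₀ ^ (∑ j, s j + 1) *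
        ∏ j : {j // j ≠ j₀}, (φ j / φ j₀) ^ ((c j).toNat + (s j - (-c j).toNat))) := by
    rw [e, Phi_monomial, map_mul, eval_C, e1, e2, Fintype.prod_eq_mul_prod_subtype_ne
      (fun j => ((s j).descFactorial (-c j).toNat : ℂ)) j₀]
    simp only [Finsupp.coe_equivFunOnFinite_symm, Option.elim_none, Option.elim_some, pow_zero,
      map_mul, map_prod, map_natCast, pow_add, Finset.prod_mul_distrib]
    ring
  rw [e3]
  by_cases hs : ∀ j, (-c j).toNat ≤ s j
  · have e4 : ∑ j, ((s j : ℤ) + c j).toNat = ∑ j, s j + 1 := by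
      have : ∀ j, ((((s j : ℤ) + c j).toNat : ℕ) : ℤ) = s j + c j := fun j => by
        have := hs j
        omega
      zify
      rw [Finset.sum_congr rfl fun j _ => this j, Finset.sum_add_distrib, hc]
    rw [← prod_eq h0, e4]
    refine congrArg _ (congrArg _ (Finset.prod_congr rfl fun j _ => congrArg _ ?_))
    have := hs j
    omega
  · push Not at hs
    obtain ⟨j, hj⟩ := hs
    rw [Finset.prod_eq_zero (Finset.mem_univ j) (by rw [Nat.choose_eq_zero_of_lt hj, Nat.cast_zero]),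
      map_zero, zero_mul, zero_mul]

end BS2A

open BS2A in
theorem rowBS2 : SBs2 := by
  intro hP K _ _ N r x f b j₀ R A ⟨S, P, hS, hb⟩ hR h0 hA
  have h := hP K _ (fun j : {j // j ≠ j₀} => aeval x (f j) / aeval x (f j₀)) _ h0
  set T := AddSubgroup.closure {H | ∃ (p : Po N) (L : List (Fin N))
    (Q : MvPolynomial (Option {j // j ≠ j₀}) K), Q ∈ spol _ A ∧ H = C (aeval x p) *
      L.foldr (fun l H => nb (fun j : {j // j ≠ j₀} => aeval x (f j) / aeval x (f j₀))
        (aeval x (f j₀)) (R l) H) (C (aeval x (f j₀)) * Q)}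
  have key : ∀ c ∈ S, ∀ (L : List (Fin N)) (p : MvPolynomial (Fin N) (MvPolynomial (Fin r) ℂ)),
      ∃ H ∈ T, ∀ s : Fin r → ℕ, Ph (fun j => aeval x (f j)) j₀ s H =
        aeval x (map (eval fun j => (s j : ℂ)) p * L.foldr (fun i h => pderiv i h)
          (C (∏ j, ((s j).choose (-c j).toNat : ℂ)) * ∏ j, f j ^ ((s j : ℤ) + c j).toNat)) := by
    intro c hc L p
    obtain ⟨Q, hQ, e⟩ := base h h0 hA c (hS c hc)
    induction p using MvPolynomial.induction_on' with
    | monomial α a =>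
      obtain ⟨Q', hQ', e'⟩ := mulP h hA a hQ
      refine ⟨_, AddSubgroup.subset_closure ⟨monomial α 1, L, Q', hQ', rfl⟩, fun s => ?_⟩
      have e1 : aeval x (f j₀) * Ph (fun j => aeval x (f j)) j₀ s Q' =
          algebraMap ℂ K (eval (fun j => (s j : ℂ)) a) * aeval x
            (C (∏ j, ((s j).choose (-c j).toNat : ℂ)) * ∏ j, f j ^ ((s j : ℤ) + c j).toNat) := by
        rw [e', mul_left_comm, e s]
        simp only [map_mul, aeval_C, map_prod, map_pow]
      rw [phi_C, phi_nb h, phi_C, e1, ders hR, map_monomial, map_mul (aeval x), aeval_monomial,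
        aeval_monomial, map_one]
      ring
    | add p q hp hq =>
      obtain ⟨H₁, h1, e1⟩ := hp
      obtain ⟨H₂, h2, e2⟩ := hq
      exact ⟨H₁ + H₂, add_mem h1 h2, fun s => by rw [map_add, e1, e2, map_add, add_mul, map_add]⟩
  choose! H hT hH using key
  have e : Polynomial.aeval (X none : MvPolynomial (Option {j // j ≠ j₀}) K) b -
      ∑ c ∈ S, ∑ L ∈ (P c).support, H c L (P c L) = 0 := by
    refine h.inj _ fun σ t ht => ?_
    obtain ⟨s, rfl, rfl⟩ : ∃ s : Fin r → ℕ, σ = ∑ j, s j ∧ t = fun j => s j.1 := by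
      refine ⟨fun j => if hj : j = j₀ then σ - ∑ j, t j else t ⟨j, hj⟩, ?_,
        funext fun j => by simp only [dif_neg j.2]⟩
      rw [Fintype.sum_eq_add_sum_subtype_ne _ j₀, dif_pos rfl]
      exact (Nat.sub_add_cancel ht).symm.trans
        (congrArg _ (Finset.sum_congr rfl fun j _ => by rw [dif_neg j.2]))
    have e1 := congrArg (aeval x) (hb s)
    rw [map_mul, aeval_C, map_prod, map_sum] at e1
    simp only [map_pow] at e1
    rw [map_sub, phi_b h, prod_eq (φ := fun j => aeval x (f j)) h0, Nat.cast_sum, e1, map_sum,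
      sub_eq_zero]
    refine Finset.sum_congr rfl fun c hc => ?_
    rw [H10.act, Finsupp.sum, map_sum, map_sum]
    exact Finset.sum_congr rfl fun L _ => (hH c hc L _ s).symm
  rw [sub_eq_zero.1 e]
  exact sum_mem fun c hc => sum_mem fun L _ => hT c hc L _

end Pool.Agent.MP_ee8c61_ag.H95G
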