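import Pool.Agent.MP_ee8c61_ag.H95G.Spec

/-! The charts of a log resolution, read in the function field. -/

namespace Pool.Agent.MP_ee8c61_ag.H95G

open H59 H95 AlgebraicGeometry CategoryTheory MvPolynomial

namespace CHTA

variable {N : ℕ} {Y : Scheme.{0}} [IsIntegral Y] (π : Y ⟶ Aff N)

theorem sec_C (U : Y.Opens) [Nonempty U] (t : ℂ) :
    sec π U (((pb π U).comp C) t) = algebraMap ℂ (FF π) t := by
  rw [RingHom.comp_apply, sec_pb]
  exact (ev π).commutes t

theorem frac {U : Y.Opens} [Nonempty U] (hU : IsAffineOpen U) (g : FF π) :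
    ∃ s t : Γ(Y, U), sec π U s ≠ 0 ∧ sec π U s * g = sec π U t := by
  have hy : genericPoint Y ∈ U := by
    obtain ⟨⟨y, hy⟩⟩ := ‹Nonempty U›
    exact ((genericPoint_spec Y).specializes trivial).mem_open U.isOpen hy
  obtain ⟨s, t, h1, h2⟩ := exists_frac π hU hy (g := g) ⟨g, by
    have : toF π (genericPoint Y) = RingHom.id _ := by
      unfold toF
      ext w
      show Y.presheaf.stalkSpecializes _ w = w
      simp
    rw [this]; rfl⟩
  exact ⟨s, t, ((un_sec π hy s).2 h1).1, h2⟩

theorem z_ne {A : Type} [CommRing A] [Nontrivial A] {c : ℂ →+* A} {z : Fin N → A}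
    (h : (eval₂Hom c z).Etale) (i : Fin N) : z i ≠ 0 := by
  let := (eval₂Hom c z).toAlgebra
  have : Algebra.Etale (Po N) A := h
  have := Module.Flat.isSMulRegular_of_nonZeroDivisors (M := A)
    (r := (X i : Po N)) (mem_nonZeroDivisors_of_ne_zero (X_ne_zero _))
  intro e
  refine one_ne_zero (this (?_ : (X i : Po N) • (1 : A) = (X i : Po N) • (0 : A)))
  simpa [Algebra.smul_def, RingHom.algebraMap_toAlgebra] using e

theorem res_etale {U V : Y.Opens} (hU : IsAffineOpen U) (hV : IsAffineOpen V) (h : V ≤ U) :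
    (Y.presheaf.map (homOfLE h).op).hom.Etale := by
  have := HasRingHomProperty.appLE @Etale (𝟙 Y) inferInstance ⟨U, hU⟩ ⟨V, hV⟩ h
  convert this using 1
  ext s
  simp only [Scheme.Hom.appLE]
  rfl

theorem et {U : Y.Opens} [Nonempty U] (hU : IsAffineOpen U) {z : Fin N → Γ(Y, U)}
    (het : (eval₂Hom ((pb π U).comp C) z).Etale) (W : Set Y) (hW : W ⊆ U) (hA : (geo π).Af W)
    (hne : W.Nonempty) (h : ∀ i, sec π U (z i) ∈ (geo π).A W) :
    (aeval fun i => (⟨sec π U (z i), h i⟩ : (geo π).A W) :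
      Po N →ₐ[ℂ] (geo π).A W).toRingHom.Etale := by
  obtain ⟨V, hV, rfl⟩ := hA
  have : Nonempty V := hne.to_subtype
  have hVU : V ≤ U := hW
  let ψ : Γ(Y, V) →+* (geo π).A V := (sec π V).codRestrict _ fun s => sec_mem π s
  have hψ : Function.Bijective ψ :=
    ⟨fun s t e => sec_inj π V (congrArg Subtype.val e), fun ⟨g, hg⟩ =>
      (exists_sec π hV hg).imp fun s e => Subtype.ext e⟩
  have h1 := RingHom.Etale.stableUnderComposition _ _
    (RingHom.Etale.stableUnderComposition _ _ het (res_etale hU hV hVU))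
    (RingHom.Etale.of_bijective hψ)
  convert h1 using 1
  refine ringHom_ext (fun t => Subtype.ext ?_) fun i => Subtype.ext ?_
  · simp only [RingHom.comp_apply, eval₂Hom_C]
    show _ = sec π V (Y.presheaf.map (homOfLE hVU).op (pb π U (C t)))
    rw [sec_res, sec_pb]
    simpa using ((ev π).commutes t).symm
  · simp only [RingHom.comp_apply, eval₂Hom_X']
    show _ = sec π V (Y.presheaf.map (homOfLE hVU).op (z i))
    rw [sec_res]
    simp

end CHTA

open CHTA

theorem rowCHT : SCht := by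
  classical
  intro hE N Y _ π J κ _ _ p E a k hY y
  obtain ⟨U, z, T, ι, D, hy, hU, het, hι, hm, hI, hD, hJ⟩ := hY.snc y
  have : Nonempty U := ⟨⟨y, hy⟩⟩
  choose D' hD' using fun l => hE Γ(Y, U) (FF π) (sec π U) ((pb π U).comp C) (D l) (sec_inj π U)
    (sec_C π U) (frac π hU) (hD l).1
  let Ch : Cht (FF π) Y J N :=
    ⟨U, fun i => sec π U (z i), fun j => if j ∈ T then some (ι j) else none, D'⟩
  have hη : ∀ j, Ch.η j = if j ∈ T then sec π U (z (ι j)) else 1 := fun j => by
    by_cases hj : j ∈ T <;> simp [Cht.η, Ch, hj]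
  have hmon : ∀ c : J → ℕ, Ch.mon c = sec π U (∏ j ∈ T, z (ι j) ^ c j) := fun c => by
    rw [Cht.mon, map_prod, ← Finset.prod_subset (Finset.subset_univ T)]
    · exact Finset.prod_congr rfl fun j hj => by rw [hη, if_pos hj, map_pow]
    · intro j _ hj
      rw [hη, if_neg hj, one_pow]
  rw [Ideal.map_span, ← Set.range_comp] at hI
  refine ⟨Ch, hy, ⟨U, hU, rfl⟩, fun i => sec_mem π _, fun i e => z_ne het i
    (sec_inj π U (e.trans (map_zero _).symm)), fun W hW hA hne h => et π hU het W hW hA hne h,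
    fun j j' i h1 h2 => ?_, fun j y' hy' => ?_, fun i => ?_, ?_, fun i j => ?_,
    fun i g hg => ?_, ?_⟩
  · by_cases hj : j ∈ T
    · by_cases hj' : j' ∈ T
      · simp only [Ch, hj, hj', if_true, Option.some.injEq] at h1 h2
        exact hι hj hj' (h1.trans h2.symm)
      · simp [Ch, hj'] at h2
    · simp [Ch, hj] at h1
  · rw [hm j y' hy', hη]
    by_cases hj : j ∈ T
    · rw [if_pos hj, un_sec π hy']; simp [hj]
    · rw [if_neg hj]; simp [hj, Geo.un_one]
  · obtain ⟨t, ht⟩ := Ideal.mem_span_singleton'.1 (hI.le (Ideal.subset_span ⟨i, rfl⟩))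
    exact ⟨sec π U t, sec_mem π t, by
      rw [hmon, ← map_mul, ht, Function.comp_apply, sec_pb]⟩
  · obtain ⟨t, ht⟩ := Ideal.mem_span_range_iff_exists_fun.1
      (hI.ge (Ideal.mem_span_singleton_self _))
    refine ⟨fun i => sec π U (t i), fun i => sec_mem π _, ?_⟩
    rw [hmon, ← ht, map_sum]
    exact Finset.sum_congr rfl fun i _ => by rw [map_mul, Function.comp_apply, sec_pb]
  · show D' i (sec π U (z j)) = _
    rw [hD', (hD i).2 j]
    split_ifs <;> simp
  · obtain ⟨s, rfl⟩ := exists_sec π hU hg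
    show D' i (sec π U s) ∈ _
    rw [hD']
    exact sec_mem π _
  · obtain ⟨u, hu⟩ := (Ideal.span_singleton_eq_span_singleton.1 hJ).symm
    refine ⟨sec π U u, fun y' hy' => (un_sec π hy' _).2 ?_, ?_⟩
    · rw [Y.basicOpen_of_isUnit u.isUnit]; exact hy'
    · rw [hmon, ← map_mul, mul_comm, hu, RingHom.map_det]
      congr 1
      ext l i
      show D' i (xx π l) = sec π U (D i (pb π U (X l)))
      rw [← hD', sec_pb, xx]

end Pool.Agent.MP_ee8c61_ag.H95G
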