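import Pool.Agent.MP_ee8c61_ag.H95G.Spec

/-! Two equations of the same divisor differ by a unit. -/

namespace Pool.Agent.MP_ee8c61_ag.H95G

open MvPolynomial

namespace CMPA

theorem mem (hR : Rad) {K Y J J' κ κ' : Type} {N : ℕ} [Field K] [Algebra ℂ K] [TopologicalSpace Y]
    [Fintype J] [Fintype J'] [Fintype κ] [Fintype κ'] {G : Geo K Y} {x : Fin N → K} {q : κ → K}
    {q' : κ' → K} {E : J → Set Y} {E' : J' → Set Y} {a k : J → ℕ} {a' k' : J' → ℕ}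
    {C : Cht K Y J N} {C' : Cht K Y J' N} {j : J} {j' : J'} {y : Y} (hG : G.OK)
    (h : C.OK G x q E a k) (h' : C'.OK G x q' E' a' k') (e : E' j' = E j) (hy : y ∈ C.U)
    (hy' : y ∈ C'.U) : C.η j / C'.η j' ∈ G.O y := by
  obtain ⟨s, hs, hys, hW⟩ := hG.nhd C.U h.af y hy C'.U (hG.op _ h'.af) hy'
  have haf := hG.bas C.U h.af s hs
  have hU : G.Ds C.U s ⊆ C.U := fun _ hp => hp.1
  generalize G.Ds C.U s = W at hys hW haf hU
  have hη : C.η j ∈ G.A W := Geo.A_anti hU (h.η_mem j)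
  have h1 : (C'.η j')⁻¹ ∈ G.A (G.Ds W (C.η j)) := Geo.mem_A.2 fun p hp => by
    have h2 : p ∉ E' j' := fun h3 => (h.mem j p (hU hp.1)).1 (e ▸ h3) hp.2
    exact (not_not.1 fun h3 => h2 ((h'.mem j' p (hW hp.1)).2 h3)).2.2
  obtain ⟨n, hn⟩ := hG.pow W haf _ hη (h.η_ne j) _ h1
  refine Geo.mem_A.1 ?_ y hys
  have h0 := h'.η_ne j'
  rcases hl : C'.lab j' with _ | i
  · have e1 : C'.η j' = 1 := by simp [Cht.η, hl]
    rw [e1, div_one]
    exact hη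
  · have e1 : C'.η j' = C'.z i := by simp [Cht.η, hl]
    rw [e1] at hn h0 ⊢
    have hz : ∀ i, C'.z i ∈ G.A W := fun i => Geo.A_anti hW (h'.zm i)
    have h2 := hR _ N _ (h'.et W hW haf ⟨y, hys⟩ hz) i
    have e2 : (aeval fun i => (⟨C'.z i, hz i⟩ : G.A W) : Po N →ₐ[ℂ] G.A W).toRingHom (X i) =
        ⟨C'.z i, hz i⟩ := aeval_X _ i
    rw [e2] at h2
    have h3 : (⟨C.η j, hη⟩ : G.A W) ∈ Ideal.span {(⟨C'.z i, hz i⟩ : G.A W)} :=
      h2 ⟨n, Ideal.mem_span_singleton'.2 ⟨⟨_, hn⟩, Subtype.ext (inv_mul_cancel_right₀ h0 _)⟩⟩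
    obtain ⟨c, hc⟩ := Ideal.mem_span_singleton'.1 h3
    have e3 : (c : K) * C'.z i = C.η j := congrArg Subtype.val hc
    rw [← e3, mul_div_cancel_right₀ _ h0]
    exact c.2

end CMPA

theorem rowCMP : SCmp := by
  intro hR K Y J J' κ κ' N _ _ _ _ _ _ _ G x q q' E E' a k a' k' C C' j j' y hG h h' e hy hy'
  refine ⟨div_ne_zero (h.η_ne j) (h'.η_ne j'), CMPA.mem hR hG h h' e hy hy', ?_⟩
  rw [inv_div]
  exact CMPA.mem hR hG h' h e.symm hy' hy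

end Pool.Agent.MP_ee8c61_ag.H95G
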