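import Pool.Agent.MP_ee8c61_ag.H95G.Spec

namespace Pool.Agent.MP_ee8c61_ag.H95G

namespace COVA

variable {K Y κ : Type} [Field K] [Algebra ℂ K] {G : Geo K Y} {q : κ → K} {i : κ} {y : Y}

theorem gn_iff (h0 : q i ≠ 0) : G.Gn q i y ↔ ∀ j, q j / q i ∈ G.O y := by
  refine forall_congr' fun j => ⟨?_, fun h => ⟨_, h, (div_mul_cancel₀ _ h0).symm⟩⟩
  rintro ⟨h, hh, e⟩
  rwa [e, mul_div_cancel_right₀ _ h0]

theorem gn_of {i' : κ} (h0 : q i ≠ 0) (h : G.Gn q i y) (hu : G.Un y (q i' / q i)) :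
    G.Gn q i' y := by
  have h1 : q i' ≠ 0 := fun e => hu.1 (by simp [e])
  refine (gn_iff h1).2 fun j => ?_
  have e : q j / q i' = q j / q i * (q i' / q i)⁻¹ := by field_simp
  rw [e]
  exact mul_mem ((gn_iff h0).1 h j) hu.2.2

end COVA

open COVA

theorem rowCOV : SCov := by
  intro K Y J κ κ' N _ _ _ _ _ _ G x q E n k F j₀ hG hR hA hF
  classical
  have hop : IsOpen {y | G.Gn F j₀ y} := by
    have e : {y | G.Gn F j₀ y} = ⋂ j, {y | F j / F j₀ ∈ G.O y} := by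
      ext y
      simp [gn_iff hF]
    rw [e]
    exact isOpen_iInter_of_finite fun j => hG.opn _
  have key : ∀ y : {y | G.Gn F j₀ y}, ∃ (C : Cht K Y J N) (i : κ) (g : K),
      C.OK G x q E n k ∧ q i ≠ 0 ∧ g ∈ G.A {y | G.Gn q i y} ∧
      y.1 ∈ G.Ds {y | G.Gn q i y} g ∧ G.Ds {y | G.Gn q i y} g ⊆ {y | G.Gn F j₀ y} ∩ C.U := by
    intro y
    obtain ⟨C, hy, hC⟩ := hR y.1
    obtain ⟨i, hi⟩ := hC.exists_un hG hy
    obtain ⟨g, h1, h2, h3⟩ := hG.nhd _ (hA i) y.1 ((hC.gn_iff hG hy i).2 hi) _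
      (hop.inter (hG.op _ hC.af)) ⟨y.2, hy⟩
    exact ⟨C, i, g, hC, fun e => hi.1 (by simp [e]), h1, h2, h3⟩
  choose C i g hC h0 hg hy hs using key
  have haf : ∀ y, G.Af (G.Ds {y' | G.Gn q (i y) y'} (g y)) := fun y => hG.bas _ (hA _) _ (hg y)
  obtain ⟨t, ht⟩ := (hG.cpt _ hop).elim_finite_subcover
    (fun y => G.Ds {y' | G.Gn q (i y) y'} (g y)) (fun y => hG.op _ (haf y))
    fun y h => Set.mem_iUnion.2 ⟨⟨y, h⟩, hy ⟨y, h⟩⟩
  have hsm : ∀ a b, q (i a) / q (i b) ∈ G.A {y | G.Gn q (i b) y} := fun a b =>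
    Geo.mem_A.2 fun y h => (gn_iff (h0 b)).1 h _
  have hpow : ∀ a b, ∃ e : ℕ, (q (i a) / q (i b)) ^ e * g a ∈ G.A {y | G.Gn q (i b) y} :=
    fun a b => hG.pow _ (hA _) _ (hsm a b) (div_ne_zero (h0 a) (h0 b)) _
      (Geo.A_anti (fun y h => gn_of (h0 b) h.1 h.2) (hg a))
  choose e he using hpow
  obtain ⟨m, hm⟩ : ∃ m : ℕ, ∀ a b : t, e a b ≤ m :=
    ⟨Finset.univ.sup fun p : t × t => e p.1 p.2, fun a b =>
      Finset.le_sup (f := fun p : t × t => e p.1 p.2) (Finset.mem_univ (a, b))⟩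
  have h1 : ∀ a b : t, (q (i a) / q (i b)) ^ m * g a ∈ G.A {y | G.Gn q (i b) y} := by
    intro a b
    obtain ⟨c, hc⟩ := Nat.exists_eq_add_of_le' (hm a b)
    rw [hc, pow_add, mul_assoc]
    exact mul_mem (pow_mem (hsm a b) c) (he a b)
  have h2 : ∀ a b : t, g a * q (i a) ^ (m + 1) / (g b * q (i b) ^ (m + 1)) =
      q (i a) / q (i b) * ((q (i a) / q (i b)) ^ m * g a) / g b := by
    intro a b
    have := h0 b
    have := (hy b).2.1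
    rw [div_pow]
    field_simp
    ring
  refine ⟨t, inferInstance, fun a => C a, fun a => G.Ds {y | G.Gn q (i a) y} (g a), fun a => i a,
    fun a => g a, m + 1, fun a => hC a, fun a y h => (hs a h).2, fun a => haf a,
    fun a => ⟨_, hy a⟩, fun y => ⟨fun h => ?_, fun ⟨a, h⟩ => (hs a h).1⟩, fun a y h => h.1,
    fun a y h => h.2, m.succ_pos, fun a b => Geo.mem_A.2 fun y h => ?_, fun a b => ?_⟩
  · obtain ⟨a, ha, h'⟩ := Set.mem_iUnion₂.1 (ht h)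
    exact ⟨⟨a, ha⟩, h'⟩
  · rw [h2, div_eq_mul_inv]
    exact mul_mem (mul_mem (Geo.mem_A.1 (hsm a b) y h.1) (Geo.mem_A.1 (h1 a b) y h.1)) h.2.2.2
  · rw [h2]
    ext y
    refine ⟨fun ⟨hb, hu⟩ => ⟨?_, hb⟩, fun ⟨ha, hb⟩ => ⟨hb, ?_⟩⟩
    · have m1 := Geo.mem_A.1 (hsm a b) y hb.1
      have h3 := hu.mul hb.2
      rw [div_mul_cancel₀ _ hb.2.1] at h3
      have h4 := gn_of (h0 b) hb.1 (h3.of_mul m1 (Geo.mem_A.1 (h1 a b) y hb.1))
      rw [← mul_assoc, mul_comm] at h3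
      exact ⟨h4, h3.of_mul (Geo.mem_A.1 (hg a) y h4) (mul_mem m1 (pow_mem m1 m))⟩
    · have h3 : G.Un y (q (i a) / q (i b)) := ⟨div_ne_zero (h0 a) (h0 b),
        (gn_iff (h0 b)).1 hb.1 _, by rw [inv_div]; exact (gn_iff (h0 a)).1 ha.1 _⟩
      exact (h3.mul ((h3.pow m).mul ha.2)).div hb.2

end Pool.Agent.MP_ee8c61_ag.H95G
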