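import Pool.Agent.MP_ee8c61_ag.H95G.Spec

/-! A derivation extends to the field of fractions. -/

namespace Pool.Agent.MP_ee8c61_ag.H95G

open H95 TrivSqZeroExt

theorem rowEXT : SExt := by
  intro A K _ _ _ φ c D hφ hc hs ⟨h1, h2, h3⟩
  have d0 : D 0 = 0 := (congrArg D (map_zero c)).symm.trans (h3 0)
  have d1 : D 1 = 0 := (congrArg D (map_one c)).symm.trans (h3 1)
  let ψ : A →+* TrivSqZeroExt K K :=
    { toFun s := inl (φ s) + inr (φ (D s))
      map_one' := by ext <;> simp [d1]
      map_mul' x y := by ext <;> simp [h2, mul_comm]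
      map_zero' := by ext <;> simp [d0]
      map_add' x y := by ext <;> simp [h1] }
  have e1 : ∀ s, (ψ s).fst = φ s := fun s => by simp [ψ]
  have e2 : ∀ s, (ψ s).snd = φ (D s) := fun s => by simp [ψ]
  let _ := φ.toAlgebra
  have : FaithfulSMul A K := (faithfulSMul_iff_algebraMap_injective A K).2 hφ
  have : IsFractionRing A K := IsFractionRing.of_field A K fun g => by
    obtain ⟨s, t, h0, e⟩ := hs g
    exact ⟨t, s, (eq_div_iff h0).2 ((mul_comm _ _).trans e)⟩
  have hu : ∀ y : nonZeroDivisors A, IsUnit (ψ y) := fun y => by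
    rw [isUnit_iff_isUnit_fst, e1]
    exact IsLocalization.map_units K y
  have l0 : ∀ s, IsLocalization.lift (S := K) hu (φ s) = ψ s := IsLocalization.lift_eq hu
  generalize IsLocalization.lift (S := K) hu = L at l0
  have l1 : ∀ g, (L g).fst = g := fun g => DFunLike.congr_fun
    (IsLocalization.ringHom_ext (nonZeroDivisors A) (j := (fstHom K K K).toRingHom.comp L)
      (k := RingHom.id K) (RingHom.ext fun s => (congrArg fst (l0 s)).trans (e1 s))) g
  have l2 : ∀ a b, (L (a * b)).snd = a • (L b).snd + b • (L a).snd := fun a b => by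
    simp [l1, mul_comm]
  refine ⟨Derivation.mk'
    { toFun g := (L g).snd
      map_add' a b := by simp
      map_smul' t g := by
        rw [Algebra.smul_def, l2, ← hc, l0, e2, h3, map_zero, smul_zero, add_zero, hc,
          RingHom.id_apply, Algebra.smul_def t, smul_eq_mul] } l2, fun s => ?_⟩
  exact (congrArg snd (l0 s)).trans (e2 s)

end Pool.Agent.MP_ee8c61_ag.H95G
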