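import Pool.Agent.MP_ee8c61_ag.H95G.Spec

/-! The derivations dual to the coordinates of affine space. -/

namespace Pool.Agent.MP_ee8c61_ag.H95G

open MvPolynomial

namespace FRAMEA

variable {K : Type} [Field K] [Algebra ℂ K] {N : ℕ}

theorem dsum {ι : Type} (s : Finset ι) (D : ι → Derivation ℂ K K) (g : K) :
    (∑ i ∈ s, D i) g = ∑ i ∈ s, D i g := by
  classical
  induction s using Finset.induction_on with
  | empty => simp
  | insert i s hi ih => rw [Finset.sum_insert hi, Finset.sum_insert hi, Derivation.add_apply, ih]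

/-- A derivation that kills the coordinates kills an etale algebra. -/
theorem unr (A : Subalgebra ℂ K) (φ : Po N →ₐ[ℂ] A) (h : φ.toRingHom.Etale)
    (δ : Derivation ℂ K K) (hδ : ∀ i, δ (φ (X i) : K) = 0) (a : A) : δ (a : K) = 0 := by
  have h0 : ∀ p : Po N, δ (φ p : K) = 0 := by
    intro p
    induction p using MvPolynomial.induction_on with
    | C c =>
      have e : (φ (C c) : K) = algebraMap ℂ K c := by
        rw [← MvPolynomial.algebraMap_eq, AlgHom.commutes]; rfl
      rw [e, Derivation.map_algebraMap]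
    | add p q hp hq => rw [map_add, Subalgebra.coe_add, map_add, hp, hq, add_zero]
    | mul_X p i hp =>
      rw [map_mul, Subalgebra.coe_mul, Derivation.leibniz, hp, hδ, smul_zero, smul_zero, add_zero]
  let : Algebra (Po N) A := φ.toRingHom.toAlgebra
  let : Algebra (Po N) K := ((algebraMap A K).comp φ.toRingHom).toAlgebra
  have : IsScalarTower (Po N) A K := IsScalarTower.of_algebraMap_eq fun _ => rfl
  have : Algebra.Etale (Po N) A := h
  let L : A →ₗ[Po N] K :=
    { toFun := fun a => δ (a : K)
      map_add' := fun a b => by rw [Subalgebra.coe_add, map_add]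
      map_smul' := fun p a => by
        show δ ((φ p : K) * (a : K)) = (φ p : K) * δ (a : K)
        rw [Derivation.leibniz, h0, smul_zero, add_zero, smul_eq_mul] }
  let D : Derivation (Po N) A K := Derivation.mk' L fun a b => by
    show δ ((a : K) * (b : K)) = (a : K) * δ (b : K) + (b : K) * δ (a : K)
    rw [Derivation.leibniz, smul_eq_mul, smul_eq_mul]
  have e := D.liftKaehlerDifferential_comp_D a
  rw [Subsingleton.elim (KaehlerDifferential.D (Po N) A a) 0, map_zero] at e
  exact e.symm

end FRAMEA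

open FRAMEA in
theorem rowFRAME : SFrame := by
  intro K Y J κ N _ _ _ _ _ G x q E a k C hG hC hne
  have z0 : ∀ δ : Derivation ℂ K K, (∀ i, δ (C.z i) = 0) → ∀ g, δ g = 0 := by
    intro δ hδ g
    have hA : ∀ b ∈ G.A C.U, δ b = 0 := fun b hb =>
      unr (G.A C.U) _ (hC.et C.U subset_rfl hC.af hne hC.zm) δ
        (fun i => by rw [aeval_X]; exact hδ i) ⟨b, hb⟩
    obtain ⟨s, hs, hs0, hsg⟩ := hG.fld C.U hC.af hne g
    have h1 := hA _ hsg
    rw [Derivation.leibniz, hA s hs, smul_zero, add_zero, smul_eq_mul] at h1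
    exact (mul_eq_zero.1 h1).resolve_left hs0
  have z1 : ∀ (δ : Derivation ℂ K K) (g : K), δ g = ∑ i, δ (C.z i) * C.D i g := by
    intro δ g
    have h1 := z0 (δ - ∑ i, δ (C.z i) • C.D i) (fun j => by
      rw [Derivation.sub_apply, dsum]
      simp only [Derivation.smul_apply, hC.Dz, smul_eq_mul, mul_ite, mul_one, mul_zero,
        Finset.sum_ite_eq', Finset.mem_univ, if_true, sub_self]) g
    rw [Derivation.sub_apply, dsum, sub_eq_zero] at h1
    simpa only [Derivation.smul_apply, smul_eq_mul] using h1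
  obtain ⟨u, hu, hdet⟩ := hC.det
  obtain ⟨y, hy⟩ := hne
  set M : Matrix (Fin N) (Fin N) K := Matrix.of fun l i => C.D i (x l) with hM
  have hd : M.det ≠ 0 := by
    rw [hdet]; exact mul_ne_zero (hu y hy).1 (hC.mon_ne k)
  have hdu : IsUnit M.det := isUnit_iff_ne_zero.2 hd
  have x0 : ∀ δ : Derivation ℂ K K, (∀ l, δ (x l) = 0) → ∀ g, δ g = 0 := by
    intro δ hδ
    have h1 : M.mulVec (fun i => δ (C.z i)) = 0 := by
      funext l
      have h2 := z1 δ (x l)
      rw [hδ l] at h2
      show ∑ i, C.D i (x l) * δ (C.z i) = 0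
      rw [h2]
      exact Finset.sum_congr rfl fun i _ => mul_comm _ _
    have h3 := Matrix.eq_zero_of_mulVec_eq_zero hd h1
    exact z0 δ fun i => congrFun h3 i
  let R : Fin N → Derivation ℂ K K := fun l => ∑ i, M⁻¹ i l • C.D i
  have hR : ∀ i j, R i (x j) = if i = j then 1 else 0 := by
    intro l j
    have h1 := congrFun (congrFun (Matrix.mul_nonsing_inv M hdu) j) l
    rw [Matrix.mul_apply, Matrix.one_apply] at h1
    show (∑ i, M⁻¹ i l • C.D i) (x j) = _
    rw [dsum]
    simp only [Derivation.smul_apply, smul_eq_mul, eq_comm (a := l)]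
    rw [← h1]
    exact Finset.sum_congr rfl fun i _ => mul_comm _ _
  have hk : ∀ (δ : Derivation ℂ K K) (p : Prop) [Decidable p], δ (if p then 1 else 0) = 0 := by
    intro δ p _
    split_ifs
    · exact δ.map_one_eq_zero
    · exact map_zero δ
  refine ⟨R, hR, fun i j g => ?_, fun δ g => ?_⟩
  · have h1 := x0 ⁅R i, R j⁆ (fun l => by
      rw [Derivation.commutator_apply, hR, hR, hk, hk, sub_self]) g
    rwa [Derivation.commutator_apply, sub_eq_zero] at h1
  · have h1 := x0 (δ - ∑ l, δ (x l) • R l) (fun j => by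
      rw [Derivation.sub_apply, dsum]
      simp only [Derivation.smul_apply, hR, smul_eq_mul, mul_ite, mul_one, mul_zero,
        Finset.sum_ite_eq', Finset.mem_univ, if_true, sub_self]) g
    rw [Derivation.sub_apply, dsum, sub_eq_zero] at h1
    simpa only [Derivation.smul_apply, smul_eq_mul] using h1

end Pool.Agent.MP_ee8c61_ag.H95G
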