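import Pool.Agent.MP_ee8c61_ag.H95G.Spec

/-! The local rings of an integral scheme that is proper over affine space. -/

namespace Pool.Agent.MP_ee8c61_ag.H95G

open H59 H95 AlgebraicGeometry CategoryTheory MvPolynomial

namespace GEOA

variable {N : ℕ} {Y : Scheme.{0}} [IsIntegral Y] (π : Y ⟶ Aff N)

theorem ds_sec {U : Y.Opens} [Nonempty U] (s : Γ(Y, U)) :
    (geo π).Ds U (sec π U s) = Y.basicOpen s :=
  Set.ext fun _ => ⟨fun h => (un_sec π h.1 s).1 h.2,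
    fun h => ⟨Y.basicOpen_le s h, (un_sec π (Y.basicOpen_le s h) s).2 h⟩⟩

theorem loc (y : Y) (g : FF π) (hg : g ∈ (geo π).O y) (h : FF π) (hh : h ∈ (geo π).O y)
    (hu : (geo π).Un y (g + h)) : (geo π).Un y g ∨ (geo π).Un y h := by
  obtain ⟨t, rfl⟩ := hg
  obtain ⟨t', rfl⟩ := hh
  rw [← map_add, un_toF] at hu
  simpa only [un_toF] using IsLocalRing.isUnit_or_isUnit_of_isUnit_add hu

theorem opn (g : FF π) : IsOpen {y | g ∈ (geo π).O y} := by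
  refine isOpen_iff_forall_mem_open.2 fun y hy => ?_
  obtain ⟨t, rfl⟩ := hy
  obtain ⟨U, hU, s, rfl⟩ := Y.presheaf.exists_germ_eq t
  have : Nonempty (U : Y.Opens) := ⟨⟨y, hU⟩⟩
  refine ⟨U, fun y' hy' => ?_, U.isOpen, hU⟩
  have h1 := Geo.mem_A.1 (sec_mem π (U := U) s) y' hy'
  rw [← toF_germ π hU] at h1
  exact h1

theorem bas (U : Y.Opens) (hU : IsAffineOpen U) (s : FF π) (hs : s ∈ (geo π).A U) :
    (geo π).Af ((geo π).Ds U s) := by
  by_cases h : Nonempty U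
  · obtain ⟨s, rfl⟩ := exists_sec π hU hs
    exact ⟨_, hU.basicOpen s, ds_sec π s⟩
  · exact ⟨U, hU, Set.ext fun y => ⟨fun k => k.1, fun k => absurd ⟨⟨y, k⟩⟩ h⟩⟩

theorem pow (U : Y.Opens) (hU : IsAffineOpen U) (s : FF π) (hs : s ∈ (geo π).A U) (h0 : s ≠ 0)
    (g : FF π) (hg : g ∈ (geo π).A ((geo π).Ds U s)) : ∃ e : ℕ, s ^ e * g ∈ (geo π).A U := by
  by_cases h : Nonempty U
  · obtain ⟨s, rfl⟩ := exists_sec π hU hs
    rw [ds_sec] at hg
    have h1 : Y.basicOpen s ≠ ⊥ := fun e => h0 (by rw [(basicOpen_eq_bot_iff s).1 e, map_zero])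
    have : Nonempty (Y.basicOpen s) := by
      obtain ⟨y, hy⟩ := (TopologicalSpace.Opens.ne_bot_iff_nonempty _).1 h1
      exact ⟨⟨y, hy⟩⟩
    obtain ⟨t, rfl⟩ := exists_sec π (hU.basicOpen s) hg
    have := hU.isLocalization_basicOpen s
    obtain ⟨n, a, e⟩ := IsLocalization.Away.surj s t
    have e1 := congrArg (sec π (Y.basicOpen s)) e
    have e2 : ∀ b : Γ(Y, U), sec π (Y.basicOpen s) (algebraMap _ _ b) = sec π U b := fun b =>
      sec_res π (Y.basicOpen_le s) b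
    rw [map_mul, map_pow, e2, e2, mul_comm] at e1
    exact ⟨n, e1 ▸ sec_mem π a⟩
  · exact ⟨0, Geo.mem_A.2 fun y k => absurd ⟨⟨y, k⟩⟩ h⟩

theorem nhd (U : Y.Opens) (hU : IsAffineOpen U) (y : Y) (hy : y ∈ U) (V : Set Y) (hV : IsOpen V)
    (hyV : y ∈ V) : ∃ s ∈ (geo π).A U, y ∈ (geo π).Ds U s ∧ (geo π).Ds U s ⊆ V := by
  have : Nonempty U := ⟨⟨y, hy⟩⟩
  obtain ⟨s, h1, h2⟩ := hU.exists_basicOpen_le (V := ⟨V, hV⟩) ⟨y, hyV⟩ hy
  exact ⟨_, sec_mem π s, by rw [ds_sec]; exact h2, by rw [ds_sec]; exact h1⟩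

theorem frac (U : Y.Opens) (hU : IsAffineOpen U) (y : Y) (hy : y ∈ U) (g : FF π)
    (hg : g ∈ (geo π).O y) : ∃ s ∈ (geo π).A U, (geo π).Un y s ∧ s * g ∈ (geo π).A U := by
  have : Nonempty U := ⟨⟨y, hy⟩⟩
  obtain ⟨s, t, h1, h2⟩ := exists_frac π hU hy hg
  exact ⟨_, sec_mem π s, (un_sec π hy s).2 h1, h2 ▸ sec_mem π t⟩

theorem fld (U : Y.Opens) (hU : IsAffineOpen U) [Nonempty U] (g : FF π) :
    ∃ s ∈ (geo π).A U, s ≠ 0 ∧ s * g ∈ (geo π).A U := by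
  have := functionField_isFractionRing_of_isAffineOpen Y U hU
  obtain ⟨⟨t, s⟩, e⟩ := IsLocalization.surj (nonZeroDivisors Γ(Y, U)) (S := Y.functionField) g
  have e1 : g * sec π U s = sec π U t := e
  refine ⟨_, sec_mem π s.1, fun h => nonZeroDivisors.ne_zero s.2 (sec_inj π U ?_), ?_⟩
  · rw [h, map_zero]
  · rw [mul_comm, e1]; exact sec_mem π t

omit [IsIntegral Y] in
theorem cpt [IsProper π] (V : Set Y) : IsCompact V := by
  have := LocallyOfFiniteType.isLocallyNoetherian π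
  have := QuasiCompact.compactSpace_of_compactSpace π
  have : IsNoetherian Y := {}
  exact TopologicalSpace.NoetherianSpace.isCompact V

end GEOA

theorem rowGEO : SGeo := by
  intro N Y _ π hπ
  refine ⟨GEOA.loc π, GEOA.opn π, ?_, ?_, ?_, ?_, ?_, ?_, fun V _ => GEOA.cpt π V⟩
  · rintro _ ⟨U, -, rfl⟩; exact U.isOpen
  · rintro _ ⟨U, hU, rfl⟩; exact GEOA.bas π U hU
  · rintro _ ⟨U, hU, rfl⟩; exact GEOA.pow π U hU
  · rintro _ ⟨U, hU, rfl⟩; exact GEOA.nhd π U hU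
  · rintro _ ⟨U, hU, rfl⟩; exact GEOA.frac π U hU
  · rintro _ ⟨U, hU, rfl⟩ ⟨y, hy⟩ g
    have : Nonempty U := ⟨⟨y, hy⟩⟩
    exact GEOA.fld π U hU g

end Pool.Agent.MP_ee8c61_ag.H95G
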