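import Pool.Agent.MP_ee8c61_ag.H95G.Spec

/-! A log resolution is an integral scheme. -/

namespace Pool.Agent.MP_ee8c61_ag.H95G

open H95 AlgebraicGeometry CategoryTheory MvPolynomial

namespace INTA

theorem reg {A ι : Type} [CommRing A] {c : ℂ →+* A} {N : ℕ} {z : Fin N → A}
    (h : (eval₂Hom c z).Etale) (T : Finset ι) (j : ι → Fin N) (a : ι → ℕ) {s : A}
    (e : s * ∏ i ∈ T, z (j i) ^ a i = 0) : s = 0 := by
  let := (eval₂Hom c z).toAlgebra
  have : Algebra.Etale (Po N) A := h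
  have := Module.Flat.isSMulRegular_of_nonZeroDivisors (M := A)
    (r := (∏ i ∈ T, X (j i) ^ a i : Po N)) (mem_nonZeroDivisors_of_ne_zero
      (Finset.prod_ne_zero_iff.2 fun i _ => pow_ne_zero _ (X_ne_zero _)))
  refine this ?_
  simpa [Algebra.smul_def, RingHom.algebraMap_toAlgebra, mul_comm] using e

variable {N : ℕ} {Y : Scheme.{0}} {π : Y ⟶ Aff N} {J : Type} {I : Ideal (Po N)} {E : J → Set Y}
  {a k : J → ℕ}

theorem red (hR : Red) (h : IsLogRes I π E a k) : IsReduced Y := by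
  have : ∀ x : Y, _root_.IsReduced (Y.presheaf.stalk x) := fun x => by
    obtain ⟨U, z, T, ι, D, hx, hU, het, -⟩ := h.snc x
    let := TopCat.Presheaf.algebra_section_stalk Y.presheaf (⟨x, hx⟩ : U)
    have := hU.isLocalization_stalk ⟨x, hx⟩
    exact isReduced_localizationPreserves (hU.primeIdealOf ⟨x, hx⟩).asIdeal.primeCompl
      (Y.presheaf.stalk (⟨x, hx⟩ : U).1) (hR _ _ _ het)
  exact isReduced_of_isReduced_stalk Y

theorem mem_off {U : Y.Opens} {m : Γ(Y, U)} (hm : m ∈ I.map (pb π U)) {y : Y}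
    (hy : y ∈ Y.basicOpen m) : y ∈ π ⁻¹ᵁ off I := by
  intro hz
  have hU : y ∈ U := Y.basicOpen_le m hy
  have hle : I.map (pb π U) ≤
      (IsLocalRing.maximalIdeal (Y.presheaf.stalk y)).comap (Y.presheaf.germ U y hU).hom := by
    rw [Ideal.map_le_iff_le_comap]
    intro p hp hu
    have h1 : y ∈ Y.basicOpen (pb π U p) := (Y.mem_basicOpen _ y hU).2 hu
    have h2 : Y.basicOpen (pb π U p) = U ⊓ π ⁻¹ᵁ (Aff N).basicOpen
        ((Scheme.ΓSpecIso (CommRingCat.of (Po N))).inv p) := Scheme.basicOpen_appLE π U ⊤ le_top _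
    rw [h2, basicOpen_eq_of_affine] at h1
    exact h1.2 (hz hp)
  exact hle hm ((Y.mem_basicOpen _ y hU).1 hy)

theorem dense (h : IsLogRes I π E a k) [IsReduced Y] : Dense (π ⁻¹ᵁ off I : Set Y) := by
  refine dense_iff_inter_open.2 fun V hV ⟨x, hxV⟩ => ?_
  obtain ⟨U, z, T, ι, D, hx, hU, het, -, -, hI, -⟩ := h.snc x
  obtain ⟨s, h1, h2⟩ := hU.exists_basicOpen_le (V := ⟨V, hV⟩) ⟨x, hxV⟩ hx
  have h3 : Y.basicOpen (s * ∏ j ∈ T, z (ι j) ^ a j) ≠ ⊥ := fun e => by
    rw [reg het T ι a ((basicOpen_eq_bot_iff _).1 e), Scheme.basicOpen_zero] at h2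
    exact h2
  obtain ⟨y, hy⟩ := (TopologicalSpace.Opens.ne_bot_iff_nonempty _).1 h3
  rw [Scheme.basicOpen_mul] at hy
  exact ⟨y, h1 hy.1, mem_off (hI ▸ Ideal.mem_span_singleton_self _) hy.2⟩

theorem preirr (h : IsLogRes I π E a k) : IsPreirreducible (π ⁻¹ᵁ off I : Set Y) := by
  have := h.iso
  have : PreirreducibleSpace (off I).toScheme := Subtype.preirreducibleSpace
    ((PreirreducibleSpace.isPreirreducible_univ (X := Aff N)).open_subset (off I).isOpen
      (Set.subset_univ _))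
  have : PreirreducibleSpace (π ⁻¹ᵁ off I).toScheme :=
    (Scheme.homeoOfIso (asIso (π ∣_ off I))).symm.surjective.preirreducibleSpace
      (Scheme.homeoOfIso (asIso (π ∣_ off I))).symm.continuous
  exact isPreirreducible_iff_preirreducibleSpace.2 this

end INTA

open INTA in
theorem rowINT : SInt := by
  intro hR N Y π J I E a k h hY
  have := red hR h
  have h1 := (preirr h).closure
  rw [(dense h).closure_eq] at h1
  have : PreirreducibleSpace Y := ⟨h1⟩
  have : IrreducibleSpace Y := ⟨hY⟩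
  exact isIntegral_of_irreducibleSpace_of_isReduced Y

end Pool.Agent.MP_ee8c61_ag.H95G
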