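import Pool.Agent.MP_ee8c61_ag.H95G.Spec

/-! The order of a generator along the divisors of a finer resolution. -/

namespace Pool.Agent.MP_ee8c61_ag.H95G

theorem rowORD : SOrd := by
  intro hC K Y J J' κ κ' N _ _ _ _ _ _ _ G x F q E E' a k a' n k' e C' j₀ y hG hR hC' he hE ha h0
    hy hg
  obtain ⟨C, hyC, h⟩ := hR y
  have e1 : C'.mon a' = ∏ j, C'.η (e j) ^ a j :=
    (Fintype.prod_of_injective e he _ _ (fun j' hj => by rw [h0 j' hj, pow_zero])
      fun j => by rw [ha]).symm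
  have e2 : F j₀ / C'.mon a' = F j₀ / C.mon a * ∏ j, (C.η j / C'.η (e j)) ^ a j := by
    simp only [div_pow, Finset.prod_div_distrib]
    rw [e1, ← Cht.mon, div_mul_div_cancel₀ (h.mon_ne a)]
  rw [e2]
  exact ((h.gn_iff hG hyC j₀).1 hg).mul (Geo.Un.prod _ fun j _ =>
    (hC K Y J J' κ κ' N G x F q E E' a k n k' C C' j (e j) y hG h hC' (hE j) hyC hy).pow _)

end Pool.Agent.MP_ee8c61_ag.H95G
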