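import Pool.Agent.MP_ee8c61_ag.H95G.Spec

/-! The coefficients of the generating function. -/

namespace Pool.Agent.MP_ee8c61_ag.H95G

open H59 MvPolynomial

namespace PHIA

variable {K κ : Type} [Field K]

/-- The derivatives of a power. -/
def g (x : K) (t a : ℕ) : K := (t.descFactorial a : K) * x ^ (t - a)

theorem g_rec (x : K) (t a : ℕ) : a * g x t a + x * g x t (a + 1) = t * g x t a := by
  unfold g
  rcases lt_trichotomy a t with h | rfl | h
  · obtain ⟨c, rfl⟩ := Nat.exists_eq_add_of_lt h
    rw [Nat.descFactorial_succ, show a + c + 1 - a = c + 1 by omega,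
      show a + c + 1 - (a + 1) = c by omega]
    push_cast
    ring
  · simp
  · rw [Nat.descFactorial_of_lt h, Nat.descFactorial_of_lt (Nat.lt_succ_of_lt h)]
    simp

theorem g_der [Algebra ℂ K] (R : Derivation ℂ K K) (x : K) (t a : ℕ) :
    R (g x t a) = R x * g x t (a + 1) := by
  unfold g
  rw [Derivation.leibniz, Derivation.map_natCast, Derivation.leibniz_pow, Nat.descFactorial_succ,
    Nat.sub_sub]
  simp only [smul_eq_mul, nsmul_eq_mul, Nat.cast_mul]
  ring

theorem der_prod [Algebra ℂ K] [DecidableEq κ] (R : Derivation ℂ K K) (f : κ → K) (s : Finset κ) :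
    R (∏ i ∈ s, f i) = ∑ i ∈ s, R (f i) * ∏ j ∈ s.erase i, f j := by
  induction s using Finset.induction_on with
  | empty => simp
  | insert a s ha ih =>
    rw [Finset.prod_insert ha, Finset.sum_insert ha, Finset.erase_insert ha, Derivation.leibniz,
      ih, smul_eq_mul, smul_eq_mul, Finset.mul_sum, add_comm, mul_comm]
    congr 1
    refine Finset.sum_congr rfl fun i hi => ?_
    rw [Finset.erase_insert_of_ne (fun h : a = i => ha (h ▸ hi)),
      Finset.prod_insert fun h => ha (Finset.mem_of_mem_erase h)]
    ring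

variable [Fintype κ] (v : κ → K) (F : K) (σ : ℕ) (t : κ → ℕ)

theorem mon (e : Option κ →₀ ℕ) (c : K) : Phi v F σ t (monomial e c) =
    c * ((σ : K) ^ e none * F ^ σ * ∏ j, g (v j) (t j) (e (some j))) := Phi_monomial v F σ t e c

omit [Fintype κ] in
theorem X_mul (i : Option κ) (e : Option κ →₀ ℕ) (c : K) :
    X i * monomial e c = monomial (Finsupp.single i 1 + e) c := by
  rw [monomial_single_add, pow_one]

theorem mon_none (e : Option κ →₀ ℕ) (c : K) :
    Phi v F σ t (X none * monomial e c) = σ * Phi v F σ t (monomial e c) := by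
  rw [X_mul, mon, mon]
  simp only [Finsupp.add_apply, Finsupp.single_eq_same, ne_eq, reduceCtorEq, not_false_eq_true,
    Finsupp.single_eq_of_ne, zero_add]
  ring

theorem mon_some [DecidableEq κ] (j : κ) (e : Option κ →₀ ℕ) (c : K) :
    Phi v F σ t (X (some j) * monomial e c) = c * ((σ : K) ^ e none * F ^ σ *
      (g (v j) (t j) (e (some j) + 1) * ∏ i ∈ Finset.univ.erase j, g (v i) (t i) (e (some i)))) := by
  rw [X_mul, mon, ← Finset.mul_prod_erase _ _ (Finset.mem_univ j)]
  have : ∏ i ∈ Finset.univ.erase j, g (v i) (t i) ((Finsupp.single (some j) 1 + e : Option κ →₀ ℕ)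
      (some i)) = ∏ i ∈ Finset.univ.erase j, g (v i) (t i) (e (some i)) := by
    refine Finset.prod_congr rfl fun i hi => ?_
    rw [Finsupp.add_apply, Finsupp.single_eq_of_ne
      (fun h => Finset.ne_of_mem_erase hi (Option.some.inj h)), zero_add]
  rw [this]
  simp only [Finsupp.add_apply, Finsupp.single_eq_same, ne_eq, reduceCtorEq, not_false_eq_true,
    Finsupp.single_eq_of_ne, zero_add, add_comm 1]

theorem hs (H : MvPolynomial (Option κ) K) :
    Phi v F σ t (X none * H) = σ * Phi v F σ t H := by
  induction H using MvPolynomial.induction_on' with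
  | monomial e c => exact mon_none v F σ t e c
  | add p q hp hq => rw [mul_add, map_add, map_add, hp, hq, mul_add]

theorem hxi (j : κ) (H : MvPolynomial (Option κ) K) :
    Phi v F σ t (X (some j) * pderiv (some j) H + X (some j) * C (v j) * H) =
      t j * Phi v F σ t H := by
  classical
  induction H using MvPolynomial.induction_on' with
  | monomial e c =>
    rw [X_mul_pderiv_monomial, mul_assoc, C_mul_monomial, map_add, map_nsmul, mon_some, mon,
      ← Finset.mul_prod_erase _ _ (Finset.mem_univ j), nsmul_eq_mul]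
    linear_combination c * (σ : K) ^ e none * F ^ σ *
      (∏ i ∈ Finset.univ.erase j, g (v i) (t i) (e (some i))) * g_rec (v j) (t j) (e (some j))
  | add p q hp hq =>
    rw [map_add (pderiv (some j)), mul_add, mul_add, add_add_add_comm, map_add, hp, hq, map_add,
      mul_add]

variable [Algebra ℂ K]

omit [Fintype κ] in
theorem dpol_mon (R : Derivation ℂ K K) (e : Option κ →₀ ℕ) (c : K) :
    dpol _ R (monomial e c) = monomial e (R c) := by
  classical
  ext e'
  rw [coeff_dpol, coeff_monomial, coeff_monomial]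
  split_ifs <;> simp

theorem hnab (hF : F ≠ 0) (R : Derivation ℂ K K) (H : MvPolynomial (Option κ) K) :
    Phi v F σ t (nb v F R H) = R (Phi v F σ t H) := by
  classical
  induction H using MvPolynomial.induction_on' with
  | monomial e c =>
    rw [nb, dpol_mon, add_mul, Finset.sum_mul, map_add, map_add, map_sum, mul_assoc (X none),
      C_mul_monomial, mon_none]
    simp only [mul_assoc (X (some _)), C_mul_monomial, mon_some, mon]
    have h1 : R (F ^ σ) = σ * (F⁻¹ * R F) * F ^ σ := by
      rw [Derivation.leibniz_pow, smul_eq_mul, nsmul_eq_mul]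
      rcases σ with _ | σ
      · simp
      · rw [Nat.add_sub_cancel, pow_succ]
        field_simp
    have h2 : R ((σ : K) ^ e none) = 0 := by rw [← Nat.cast_pow, Derivation.map_natCast]
    rw [Derivation.leibniz, Derivation.leibniz, Derivation.leibniz, der_prod, h1, h2]
    simp only [smul_eq_mul, g_der]
    have h3 : ∑ j, R (v j) * c * ((σ : K) ^ e none * F ^ σ * (g (v j) (t j) (e (some j) + 1) *
        ∏ i ∈ Finset.univ.erase j, g (v i) (t i) (e (some i)))) = c * ((σ : K) ^ e none * F ^ σ *
        ∑ j, R (v j) * g (v j) (t j) (e (some j) + 1) *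
          ∏ i ∈ Finset.univ.erase j, g (v i) (t i) (e (some i))) := by
      rw [Finset.mul_sum, Finset.mul_sum]
      exact Finset.sum_congr rfl fun j _ => by ring
    rw [h3]
    ring
  | add p q hp hq =>
    rw [map_add, map_add, ← hp, ← hq, ← map_add]
    congr 1
    rw [nb, nb, nb, map_add]
    ring

theorem hinj (hF : F ≠ 0) (H : MvPolynomial (Option κ) K)
    (h : ∀ σ t, ∑ j, t j ≤ σ → Phi v F σ t H = 0) : H = 0 := by
  classical
  have : CharZero K := charZero_of_injective_algebraMap (algebraMap ℂ K).injective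
  suffices ∀ (n : ℕ) (e : Option κ →₀ ℕ), ∑ j, e (some j) = n → coeff e H = 0 from
    MvPolynomial.ext _ _ fun e => this _ e rfl
  intro n
  induction n using Nat.strong_induction_on with
  | _ n ih =>
  intro e₀ hn
  obtain ⟨P, hP⟩ : ∃ P : Polynomial K, P = ∑ e ∈ H.support,
      if ∀ j, e (some j) = e₀ (some j) then Polynomial.monomial (e none) (coeff e H) else 0 :=
    ⟨_, rfl⟩
  have h1 : ∀ σ : ℕ, Phi v F σ (fun j => e₀ (some j)) H =
      F ^ σ * (∏ j, ((e₀ (some j)).factorial : K)) * P.eval (σ : K) := by
    intro σ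
    conv_lhs => rw [H.as_sum]
    rw [map_sum, hP, Polynomial.eval_finsetSum, Finset.mul_sum]
    refine Finset.sum_congr rfl fun e _ => ?_
    rw [mon]
    split_ifs with he
    · simp only [he, g, Nat.descFactorial_self, Nat.sub_self, pow_zero, mul_one,
        Polynomial.eval_monomial]
      ring
    · rw [Polynomial.eval_zero, mul_zero]
      by_cases hle : ∀ j, e (some j) ≤ e₀ (some j)
      · obtain ⟨j, hj⟩ := not_forall.1 he
        rw [ih _ (hn ▸ Finset.sum_lt_sum (fun j _ => hle j)
          ⟨j, Finset.mem_univ j, lt_of_le_of_ne (hle j) hj⟩) e rfl, zero_mul]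
      · obtain ⟨j, hj⟩ := not_forall.1 hle
        rw [Finset.prod_eq_zero (Finset.mem_univ j), mul_zero, mul_zero]
        rw [g, Nat.descFactorial_of_lt (not_le.1 hj), Nat.cast_zero, zero_mul]
  have h2 : P = 0 := by
    refine P.eq_zero_of_infinite_isRoot
      (((Set.Ici_infinite n).image (Nat.cast_injective (R := K)).injOn).mono ?_)
    rintro _ ⟨σ, hσ, rfl⟩
    have h3 := h σ (fun j => e₀ (some j)) (hn ▸ hσ)
    rw [h1] at h3
    refine (mul_eq_zero.1 h3).resolve_left (mul_ne_zero (pow_ne_zero _ hF) ?_)
    exact Finset.prod_ne_zero_iff.2 fun j _ => Nat.cast_ne_zero.2 (Nat.factorial_ne_zero _)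
  by_contra h0
  have h4 := congrArg (fun p => Polynomial.coeff p (e₀ none)) (hP.symm.trans h2)
  simp only [Polynomial.finsetSum_coeff, Polynomial.coeff_zero] at h4
  rw [Finset.sum_eq_single e₀, if_pos fun _ => rfl, Polynomial.coeff_monomial_same] at h4
  · exact h0 h4
  · intro e _ hne
    split_ifs with he
    · refine Polynomial.coeff_monomial_of_ne _ fun h5 => hne ?_
      ext i
      rcases i with _ | i
      · exact h5.symm
      · exact he i
    · exact Polynomial.coeff_zero _
  · intro hm
    exact absurd (mem_support_iff.2 h0) hm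

end PHIA

theorem rowPHI : SPhi := fun _ _ _ _ _ v F hF =>
  ⟨fun R σ t H => PHIA.hnab v F σ t hF R H, fun σ t H => PHIA.hs v F σ t H,
    fun σ t j H => PHIA.hxi v F σ t j H, fun H h => PHIA.hinj v F hF H h⟩

end Pool.Agent.MP_ee8c61_ag.H95G
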