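import Pool.Agent.MP_ee8c61_ag.H95G.Spec

/-! The system of charts attached to a cover. -/

namespace Pool.Agent.MP_ee8c61_ag.H95G

open H59

theorem rowSYS : SSys := by
  intro hC hF K Y J κ κ' ι N _ _ _ _ _ _ G x q E n k F j₀ C U i g d hG h
  obtain ⟨a₀⟩ : Nonempty ι := inferInstance
  obtain ⟨R, r1, r2, r3⟩ := hF K Y J κ N G x q E n k (C a₀) hG (h.ch a₀)
    ((h.ne a₀).mono (h.sub a₀))
  have n0 : ∀ a, g a * q (i a) ^ d ≠ 0 := fun a => by
    obtain ⟨y, hy⟩ := h.ne a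
    have h1 := ((h.ch a).gn_iff hG (h.sub a hy) (i a)).1 (h.gen a y hy)
    exact mul_ne_zero (h.un a y hy).1 (pow_ne_zero _ fun e => h1.1 (by rw [e, zero_div]))
  have key : ∀ a b, ∀ t ∈ G.A (U b ∩ U a), ∃ u : Kˣ, (u : K) ∈ G.A (U a) ∧
      ((u⁻¹ : Kˣ) : K) ∈ G.A (U b) ∧ u * t ∈ G.A (U a) := fun a b t ht => by
    have s0 := div_ne_zero (n0 b) (n0 a)
    obtain ⟨e, he⟩ := hG.pow (U a) (h.af a) _ (h.mem b a) s0 t (by rw [h.int b a]; exact ht)
    refine ⟨Units.mk0 _ s0 ^ e, ?_, ?_, ?_⟩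
    · rw [Units.val_pow_eq_pow_val]
      exact pow_mem (h.mem b a) e
    · rw [← inv_pow, Units.val_pow_eq_pow_val, Units.val_inv_eq_inv_val, Units.val_mk0, inv_div]
      exact pow_mem (h.mem a b) e
    · rw [Units.val_pow_eq_pow_val]
      exact he
  refine ⟨{
    r := x
    R := R
    A := fun a => G.A (U a)
    z := fun a => (C a).z
    D := fun a => (C a).D
    lab := fun a => (C a).lab
    η := fun a j => Units.mk0 ((C a).η j) ((h.ch a).η_ne j)
    R_r := r1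
    R_comm := r2
    D_z := fun a => (h.ch a).Dz
    D_R := fun a l t => r3 _ t
    z_mem := fun a l => Geo.A_anti (h.sub a) ((h.ch a).zm l)
    D_mem := fun a l t ht => Geo.mem_A.2 fun y hy =>
      hG.der (h.ch a).af _ ((h.ch a).Dm l) (h.sub a hy) (Geo.mem_A.1 ht y hy)
    lab_inj := fun a => (h.ch a).inj
    η_some := fun a j l e => by simp [Cht.η, e]
    η_none := fun a j e => Units.ext (by simp [Cht.η, e])
    η_mem := fun a b j => ?_
    loc := fun a b t ht => ?_ }, rfl, fun _ => rfl, fun _ => rfl, fun _ => rfl, fun _ _ => rfl⟩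
  · have h1 : (C a).η j / (C b).η j ∈ G.A (U b ∩ U a) := Geo.mem_A.2 fun y hy =>
      (hC K Y J J κ κ N G x q q E E n k n k (C a) (C b) j j y hG (h.ch a) (h.ch b) rfl
        (h.sub a hy.2) (h.sub b hy.1)).2.1
    obtain ⟨u, -, u2, u3⟩ := key a b _ h1
    rw [Units.val_div_eq_div_val, Units.val_mk0, Units.val_mk0,
      ← Units.inv_mul_cancel_left u ((C a).η j / (C b).η j)]
    exact mul_mem ((le_sup_right : G.A (U b) ≤ _) u2) ((le_sup_left : G.A (U a) ≤ _) u3)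
  · obtain ⟨u, u1, u2, u3⟩ := key a b t (Geo.A_anti Set.inter_subset_left ht)
    exact ⟨u, u1, (le_sup_right : G.A (U b) ≤ _) u2, u3⟩

end Pool.Agent.MP_ee8c61_ag.H95G
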