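import Pool.Agent.MP_ee8c61_ag.H95G.Spec

namespace Pool.Agent.MP_ee8c61_ag.H95G

open H95 AlgebraicGeometry CategoryTheory MvPolynomial

namespace VALUA

variable {N : ℕ} {Y : Scheme.{0}}

theorem stalk_comp (π : Y ⟶ Aff N) (y : Y) :
    Y.fromSpecStalk y ≫ π = Spec.map (CommRingCat.ofHom (gm π y)) := by
  have h : π = Y.toSpecΓ ≫ Spec.map π.appTop ≫ Spec.map (Scheme.ΓSpecIso (.of (Po N))).inv := by
    rw [← Scheme.toSpecΓ_naturality_assoc, ← SpecMap_ΓSpecIso_hom, ← Spec.map_comp,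
      Iso.inv_hom_id, Spec.map_id, Category.comp_id]
  conv_lhs => rw [h]
  have h1 : π.appLE ⊤ ⊤ le_top = π.appTop := by simp [Scheme.Hom.appLE]
  rw [Scheme.fromSpecStalk_toSpecΓ_assoc, ← Spec.map_comp, ← Spec.map_comp, gm, pb, h1]
  rfl

end VALUA

theorem rowVALU : SValu := by
  intro N Y _ π hπ V hc hx
  have hV : ValuativeCriterion π := (IsProper.eq_valuativeCriterion.le _ _ π hπ).1.1.1
  have h2 : ∀ p, (ev π : Po N →+* FF π) p ∈ V := fun p => by
    induction p using MvPolynomial.induction_on with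
    | C a => exact hc a
    | add p q hp hq => rw [map_add]; exact add_mem hp hq
    | mul_X p l hp => rw [map_mul]; exact mul_mem hp (hx l)
  have w : Y.fromSpecStalk (genericPoint Y) ≫ π =
      Spec.map (CommRingCat.ofHom (algebraMap V (FF π))) ≫
        Spec.map (CommRingCat.ofHom (RingHom.codRestrict _ V h2)) := by
    rw [VALUA.stalk_comp, ← Spec.map_comp]
    rfl
  obtain ⟨⟨m⟩⟩ := hV.existence
    { R := V, K := FF π, i₁ := Y.fromSpecStalk (genericPoint Y), commSq := ⟨w⟩, .. }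
  obtain ⟨l, e⟩ : ∃ l : Spec (.of V) ⟶ Y,
      Spec.map (CommRingCat.ofHom (algebraMap V (FF π))) ≫ l = Y.fromSpecStalk (genericPoint Y) :=
    ⟨m.l, m.fac_left⟩
  have e2 : Spec.map (Scheme.stalkClosedPointTo l ≫ CommRingCat.ofHom (algebraMap V (FF π))) ≫
      Y.fromSpecStalk _ = Spec.map (Y.presheaf.stalkSpecializes
        ((genericPoint_spec Y).specializes trivial)) ≫
          Y.fromSpecStalk (l (IsLocalRing.closedPoint V)) := by
    rw [Spec.map_comp, Category.assoc, Scheme.Spec_stalkClosedPointTo_fromSpecStalk, e]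
    exact (Scheme.SpecMap_stalkSpecializes_fromSpecStalk _).symm
  have e' : ∀ t, ((Scheme.stalkClosedPointTo l t : V) : FF π) = toF π _ t :=
    fun t => congrArg (fun f => f.hom t) (Spec.map_injective ((cancel_mono _).1 e2))
  refine ⟨l (IsLocalRing.closedPoint V), ?_, ?_⟩
  · rintro _ ⟨t, rfl⟩
    exact e' t ▸ (Scheme.stalkClosedPointTo l t).2
  · rintro _ ⟨t, rfl⟩ h0 hi
    refine ((un_toF π t).2 ((isUnit_map_iff (Scheme.stalkClosedPointTo l).hom t).1
      (IsUnit.of_mul_eq_one ⟨_, hi⟩ (Subtype.ext ?_)))).2.2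
    exact (congrArg (· * _) (e' t)).trans (mul_inv_cancel₀ h0)

end Pool.Agent.MP_ee8c61_ag.H95G
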