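import Pool.Agent.MP_ee8c61_ag.H95G.RAD
import Pool.Agent.MP_ee8c61_ag.H95G.EXT
import Pool.Agent.MP_ee8c61_ag.H95G.INT
import Pool.Agent.MP_ee8c61_ag.H95G.GEO
import Pool.Agent.MP_ee8c61_ag.H95G.VALU
import Pool.Agent.MP_ee8c61_ag.H95G.CHT
import Pool.Agent.MP_ee8c61_ag.H95G.FRAME
import Pool.Agent.MP_ee8c61_ag.H95G.CMP
import Pool.Agent.MP_ee8c61_ag.H95G.ORD
import Pool.Agent.MP_ee8c61_ag.H95G.COV
import Pool.Agent.MP_ee8c61_ag.H95G.SYS
import Pool.Agent.MP_ee8c61_ag.H95G.POL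
import Pool.Agent.MP_ee8c61_ag.H95G.PHI
import Pool.Agent.MP_ee8c61_ag.H95G.BS2
import Pool.Agent.MP_ee8c61_ag.H95G.BS
import Pool.Agent.MP_ee8c61_ag.H95G.RES
import Pool.Agent.MP_ee8c61_ag.H95G.ABS

/-! From the theorem on systems of charts to the theorem on log resolutions. -/

namespace Pool.Agent.MP_ee8c61_ag.H95G

theorem root (h : H59.SMain) : Root :=
  root_of rowRAD rowEXT rowINT rowGEO rowVALU rowCHT rowFRAME rowCMP rowORD rowCOV rowSYS rowPOL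
    rowPHI rowBS2 rowBS rowRES rowABS h

end Pool.Agent.MP_ee8c61_ag.H95G
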