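import Pool.Agent.MP_ee8c61_ag.H59.Defs
import Pool.Agent.MP_ee8c61_ag.H10.Defs

/-! A variety seen through the local rings inside its function field. -/

namespace Pool.Agent.MP_ee8c61_ag.H95G

open H59 MvPolynomial

abbrev Po (N : ℕ) : Type := MvPolynomial (Fin N) ℂ

/-- Local rings `O y` inside a field and a class of affine open sets. -/
structure Geo (K Y : Type) [Field K] [Algebra ℂ K] where
  O : Y → Subalgebra ℂ K
  Af : Set Y → Prop

variable {K Y : Type} [Field K] [Algebra ℂ K]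

namespace Geo

variable (G : Geo K Y)

/-- The functions that are regular on `U`. -/
noncomputable def A (U : Set Y) : Subalgebra ℂ K := ⨅ y ∈ U, G.O y

/-- `g` is a unit at `y`. -/
def Un (y : Y) (g : K) : Prop := g ≠ 0 ∧ g ∈ G.O y ∧ g⁻¹ ∈ G.O y

/-- The part of `U` where `s` is a unit. -/
def Ds (U : Set Y) (s : K) : Set Y := {y | y ∈ U ∧ G.Un y s}

/-- `q i` generates the ideal of the `q j` at `y`. -/
def Gn {κ : Type} (q : κ → K) (i : κ) (y : Y) : Prop := ∀ j, ∃ h ∈ G.O y, q j = h * q i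

structure OK [TopologicalSpace Y] : Prop where
  loc : ∀ y, ∀ g ∈ G.O y, ∀ h ∈ G.O y, G.Un y (g + h) → G.Un y g ∨ G.Un y h
  opn : ∀ g : K, IsOpen {y | g ∈ G.O y}
  op : ∀ U, G.Af U → IsOpen U
  bas : ∀ U, G.Af U → ∀ s ∈ G.A U, G.Af (G.Ds U s)
  pow : ∀ U, G.Af U → ∀ s ∈ G.A U, s ≠ 0 → ∀ g ∈ G.A (G.Ds U s), ∃ e : ℕ, s ^ e * g ∈ G.A U
  nhd : ∀ U, G.Af U → ∀ y ∈ U, ∀ V, IsOpen V → y ∈ V →
    ∃ s ∈ G.A U, y ∈ G.Ds U s ∧ G.Ds U s ⊆ V
  frac : ∀ U, G.Af U → ∀ y ∈ U, ∀ g ∈ G.O y, ∃ s ∈ G.A U, G.Un y s ∧ s * g ∈ G.A U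
  fld : ∀ U, G.Af U → U.Nonempty → ∀ g : K, ∃ s ∈ G.A U, s ≠ 0 ∧ s * g ∈ G.A U
  cpt : ∀ V : Set Y, IsOpen V → IsCompact V

/-- Every valuation ring that contains the coordinates has a centre. -/
def Val {N : ℕ} (x : Fin N → K) : Prop :=
  ∀ V : ValuationSubring K, (∀ c : ℂ, algebraMap ℂ K c ∈ V) → (∀ l, x l ∈ V) →
    ∃ y, (∀ g ∈ G.O y, g ∈ V) ∧ ∀ g ∈ G.O y, g ≠ 0 → g⁻¹ ∈ V → g⁻¹ ∈ G.O y

variable {G} {U V : Set Y} {y : Y} {g h : K}

theorem mem_A : g ∈ G.A U ↔ ∀ y ∈ U, g ∈ G.O y := by simp [A, Algebra.mem_iInf]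

theorem A_anti (hUV : U ⊆ V) : G.A V ≤ G.A U := fun _ hg =>
  mem_A.2 fun y hy => mem_A.1 hg y (hUV hy)

theorem un_one : G.Un y 1 := ⟨one_ne_zero, one_mem _, by simp⟩

theorem Un.mul (h1 : G.Un y g) (h2 : G.Un y h) : G.Un y (g * h) :=
  ⟨mul_ne_zero h1.1 h2.1, mul_mem h1.2.1 h2.2.1, by rw [mul_inv]; exact mul_mem h1.2.2 h2.2.2⟩

theorem Un.inv (h1 : G.Un y g) : G.Un y g⁻¹ := ⟨inv_ne_zero h1.1, h1.2.2, by simpa using h1.2.1⟩

theorem Un.div (h1 : G.Un y g) (h2 : G.Un y h) : G.Un y (g / h) := by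
  rw [div_eq_mul_inv]; exact h1.mul h2.inv

theorem Un.pow (h1 : G.Un y g) (e : ℕ) : G.Un y (g ^ e) := by
  induction e with
  | zero => simpa using un_one
  | succ e ih => rw [pow_succ]; exact ih.mul h1

theorem Un.prod {ι : Type} (s : Finset ι) {f : ι → K} (hf : ∀ i ∈ s, G.Un y (f i)) :
    G.Un y (∏ i ∈ s, f i) :=
  Finset.prod_induction f (G.Un y) (fun _ _ => Un.mul) un_one hf

/-- A factor of a unit is a unit. -/
theorem Un.of_mul (h1 : G.Un y (g * h)) (hg : g ∈ G.O y) (hh : h ∈ G.O y) : G.Un y g := by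
  have h0 : h ≠ 0 := right_ne_zero_of_mul h1.1
  refine ⟨left_ne_zero_of_mul h1.1, hg, ?_⟩
  have : g⁻¹ = (g * h)⁻¹ * h := by field_simp
  rw [this]; exact mul_mem h1.2.2 hh

theorem OK.sum [TopologicalSpace Y] (hG : G.OK) {ι : Type} (s : Finset ι) {f : ι → K}
    (hf : ∀ i ∈ s, f i ∈ G.O y) (hu : G.Un y (∑ i ∈ s, f i)) : ∃ i ∈ s, G.Un y (f i) := by
  classical
  induction s using Finset.induction_on with
  | empty => exact absurd Finset.sum_empty hu.1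
  | insert i s hi ih =>
    rw [Finset.sum_insert hi] at hu
    rcases hG.loc y _ (hf i (Finset.mem_insert_self i s)) _
      (sum_mem fun j hj => hf j (Finset.mem_insert_of_mem hj)) hu with h1 | h1
    · exact ⟨i, Finset.mem_insert_self i s, h1⟩
    · obtain ⟨j, hj, h2⟩ := ih (fun j hj => hf j (Finset.mem_insert_of_mem hj)) h1
      exact ⟨j, Finset.mem_insert_of_mem hj, h2⟩

/-- A derivation that preserves the ring of an affine open set preserves its local rings. -/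
theorem OK.der [TopologicalSpace Y] (hG : G.OK) (hU : G.Af U) (D : Derivation ℂ K K)
    (hD : ∀ g ∈ G.A U, D g ∈ G.A U) (hy : y ∈ U) (hg : g ∈ G.O y) : D g ∈ G.O y := by
  obtain ⟨s, hs, hu, hsg⟩ := hG.frac U hU y hy g hg
  have h1 := mem_A.1 (hD _ hsg) y hy
  have e : D g = s⁻¹ * (D (s * g) - g * D s) := by
    rw [Derivation.leibniz, smul_eq_mul, smul_eq_mul]; field_simp [hu.1]; ring
  rw [e]
  exact mul_mem hu.2.2 (sub_mem h1 (mul_mem hg (mem_A.1 (hD s hs) y hy)))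

end Geo

/-- A chart with coordinates `z`, the dual derivations and a labelling of the divisors. -/
structure Cht (K Y J : Type) (N : ℕ) [Field K] [Algebra ℂ K] where
  U : Set Y
  z : Fin N → K
  lab : J → Option (Fin N)
  D : Fin N → Derivation ℂ K K

namespace Cht

variable {J κ : Type} {N : ℕ} (C : Cht K Y J N)

/-- The equation of the divisor `j`. -/
def η (j : J) : K := (C.lab j).elim 1 C.z

def mon [Fintype J] (a : J → ℕ) : K := ∏ j, C.η j ^ a j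

/-- `C` is a chart of a log resolution of the ideal generated by the `q i`. -/
structure OK [Fintype J] [Fintype κ] (G : Geo K Y) (x : Fin N → K) (q : κ → K) (E : J → Set Y)
    (a k : J → ℕ) : Prop where
  af : G.Af C.U
  zm : ∀ i, C.z i ∈ G.A C.U
  z0 : ∀ i, C.z i ≠ 0
  et : ∀ W ⊆ C.U, G.Af W → W.Nonempty → ∀ h : ∀ i, C.z i ∈ G.A W,
    (aeval fun i => (⟨C.z i, h i⟩ : G.A W) : Po N →ₐ[ℂ] G.A W).toRingHom.Etale
  inj : ∀ j j' i, C.lab j = some i → C.lab j' = some i → j = j'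
  mem : ∀ j, ∀ y ∈ C.U, y ∈ E j ↔ ¬G.Un y (C.η j)
  dvd : ∀ i, ∃ h ∈ G.A C.U, q i = h * C.mon a
  gen : ∃ h : κ → K, (∀ i, h i ∈ G.A C.U) ∧ C.mon a = ∑ i, h i * q i
  Dz : ∀ i j, C.D i (C.z j) = if i = j then 1 else 0
  Dm : ∀ i, ∀ g ∈ G.A C.U, C.D i g ∈ G.A C.U
  det : ∃ u : K, (∀ y ∈ C.U, G.Un y u) ∧
    (Matrix.of fun l i => C.D i (x l)).det = u * C.mon k

variable {C} [Fintype J] [Fintype κ] {G : Geo K Y} {x : Fin N → K} {q : κ → K} {E : J → Set Y}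
  {a k : J → ℕ} {y : Y}

theorem OK.η_ne (h : C.OK G x q E a k) (j : J) : C.η j ≠ 0 := by
  unfold η
  cases C.lab j with
  | none => exact one_ne_zero
  | some i => exact h.z0 i

theorem OK.η_mem (h : C.OK G x q E a k) (j : J) : C.η j ∈ G.A C.U := by
  unfold η
  cases C.lab j with
  | none => exact one_mem _
  | some i => exact h.zm i

theorem OK.mon_ne (h : C.OK G x q E a k) (c : J → ℕ) : C.mon c ≠ 0 :=
  Finset.prod_ne_zero_iff.2 fun j _ => pow_ne_zero _ (h.η_ne j)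

/-- One of the `q i` generates at each point. -/
theorem OK.exists_un [TopologicalSpace Y] (hG : G.OK) (h : C.OK G x q E a k) (hy : y ∈ C.U) :
    ∃ i, G.Un y (q i / C.mon a) := by
  obtain ⟨c, hc, e⟩ := h.gen
  have h0 := h.mon_ne a
  have hq : ∀ i, q i / C.mon a ∈ G.O y := fun i => by
    obtain ⟨t, ht, e⟩ := h.dvd i
    rw [e, mul_div_cancel_right₀ _ h0]; exact Geo.mem_A.1 ht y hy
  have h1 : ∑ i, q i / C.mon a * c i = 1 := by
    have : ∑ i, q i / C.mon a * c i = (∑ i, c i * q i) / C.mon a := by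
      rw [Finset.sum_div]; exact Finset.sum_congr rfl fun i _ => by ring
    rw [this, ← e, div_self h0]
  obtain ⟨i, -, hi⟩ := hG.sum (y := y) Finset.univ (f := fun i => q i / C.mon a * c i)
    (fun i _ => mul_mem (hq i) (Geo.mem_A.1 (hc i) y hy)) (by rw [h1]; exact Geo.un_one)
  exact ⟨i, hi.of_mul (hq i) (Geo.mem_A.1 (hc i) y hy)⟩

theorem OK.gn_iff [TopologicalSpace Y] (hG : G.OK) (h : C.OK G x q E a k) (hy : y ∈ C.U) (i : κ) :
    G.Gn q i y ↔ G.Un y (q i / C.mon a) := by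
  have h0 := h.mon_ne a
  have hq : ∀ i, q i / C.mon a ∈ G.O y := fun i => by
    obtain ⟨t, ht, e⟩ := h.dvd i
    rw [e, mul_div_cancel_right₀ _ h0]; exact Geo.mem_A.1 ht y hy
  refine ⟨fun hg => ?_, fun hu j => ⟨q j / C.mon a * (q i / C.mon a)⁻¹, mul_mem (hq j) hu.2.2, ?_⟩⟩
  · obtain ⟨j, hj⟩ := h.exists_un hG hy
    obtain ⟨t, ht, e⟩ := hg j
    rw [e, mul_div_assoc, mul_comm] at hj
    exact hj.of_mul (hq i) ht
  · have : q i ≠ 0 := fun e => hu.1 (by simp [e])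
    field_simp

end Cht

/-- Every point lies in a chart. -/
def Geo.Res {J κ : Type} {N : ℕ} [Fintype J] [Fintype κ] (G : Geo K Y) (x : Fin N → K) (q : κ → K)
    (E : J → Set Y) (a k : J → ℕ) : Prop :=
  ∀ y, ∃ C : Cht K Y J N, y ∈ C.U ∧ C.OK G x q E a k

/-- A finite cover of the locus where `F j₀` generates by affine sets cut out by sections of one
power of the polarization. -/
structure Cov {J κ κ' ι : Type} {N : ℕ} [Fintype J] [Fintype κ] (G : Geo K Y) (x : Fin N → K)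
    (q : κ → K) (E : J → Set Y) (n k : J → ℕ) (F : κ' → K) (j₀ : κ') (C : ι → Cht K Y J N)
    (U : ι → Set Y) (i : ι → κ) (g : ι → K) (d : ℕ) : Prop where
  ch : ∀ a, (C a).OK G x q E n k
  sub : ∀ a, U a ⊆ (C a).U
  af : ∀ a, G.Af (U a)
  ne : ∀ a, (U a).Nonempty
  cov : ∀ y, G.Gn F j₀ y ↔ ∃ a, y ∈ U a
  gen : ∀ a, ∀ y ∈ U a, G.Gn q (i a) y
  un : ∀ a, ∀ y ∈ U a, G.Un y (g a)
  pos : 0 < d
  mem : ∀ a b, g a * q (i a) ^ d / (g b * q (i b) ^ d) ∈ G.A (U b)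
  int : ∀ a b, G.Ds (U b) (g a * q (i a) ^ d / (g b * q (i b) ^ d)) = U a ∩ U b

/-- The system `S` is made of the given charts. -/
structure Fit {J ι : Type} {N : ℕ} (S : Sys ℂ K ι J N) (G : Geo K Y) (x : Fin N → K)
    (C : ι → Cht K Y J N) (U : ι → Set Y) : Prop where
  r : S.r = x
  A : ∀ a, S.A a = G.A (U a)
  z : ∀ a, S.z a = (C a).z
  D : ∀ a, S.D a = (C a).D
  η : ∀ a j, (S.η a j : K) = (C a).η j

/-- The input of the main theorem without the generation of the ambient ring. -/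
structure MainK {Ω ι J : Type} {n m : ℕ} [CommRing Ω] [Algebra ℂ Ω] [Fintype J]
    (S : Sys ℂ Ω ι J n) (x : Fin m → Ω) (f : Ωˣ) (a kk : J → ℕ) (b : Polynomial ℂ) : Prop where
  et : ∀ a, (S.zh a).toRingHom.Etale
  r_mem : ∀ c l, S.r l ∈ S.A c
  f_ord : ∀ c, S.IsU c (f * S.mon c fun j => -(a j : ℤ))
  det : ∀ c, ∃ U : Ωˣ, S.IsU c U ∧ (Matrix.of fun l i => S.D c i (S.r l)).det =
    ((U * S.mon c fun j => (kk j : ℤ) : Ωˣ) : Ω)
  bs : ∃ (u : ℕ) (β : Fin n → PX m Ω) (Q : PX m Ω),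
    (∀ c l e, (f : Ω) ^ u * coeff e (β l) ∈ S.A c) ∧ (∀ c e, coeff e Q ∈ S.A c) ∧
    Polynomial.aeval (X none : PX m Ω) b =
      C (f : Ω) * Q + ∑ l, (dpol _ (S.R l) (β l) + S.th x f l * β l)

section Phi

variable {κ : Type} [Fintype κ] (v : κ → K) (F : K)

/-- The derivation `R` twisted by `F ^ s * exp (∑ ξ j * v j)`. -/
noncomputable def nb (R : Derivation ℂ K K) (H : MvPolynomial (Option κ) K) :
    MvPolynomial (Option κ) K :=
  dpol _ R H + (∑ j, X (some j) * C (R (v j)) + X none * C (F⁻¹ * R F)) * H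

/-- The coefficients of `H * F ^ s * exp (∑ ξ j * v j)` at `s = σ`. -/
noncomputable def Phi (σ : ℕ) (t : κ → ℕ) : MvPolynomial (Option κ) K →ₗ[K] K :=
  (basisMonomials (Option κ) K).constr K fun e => (σ : K) ^ e none * F ^ σ *
    ∏ j, (((t j).descFactorial (e (some j)) : K) * v j ^ (t j - e (some j)))

omit [Algebra ℂ K] in
theorem Phi_monomial (σ : ℕ) (t : κ → ℕ) (e : Option κ →₀ ℕ) (c : K) :
    Phi v F σ t (monomial e c) = c * ((σ : K) ^ e none * F ^ σ *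
      ∏ j, (((t j).descFactorial (e (some j)) : K) * v j ^ (t j - e (some j)))) := by
  have : monomial e c = c • basisMonomials (Option κ) K e := by
    simp [smul_monomial]
  rw [this, map_smul, Phi, Module.Basis.constr_basis, smul_eq_mul]

end Phi

end Pool.Agent.MP_ee8c61_ag.H95G
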