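import Pool.Agent.MP_ee8c61_ag.H95G.Spec

/-! The polarization of the system of charts. -/

namespace Pool.Agent.MP_ee8c61_ag.H95G

open H59

namespace POLA

variable {K : Type} [Field K] [Algebra ℂ K]

theorem int_of (B : Subalgebra ℂ K) {g : K}
    (h : ∀ V : ValuationSubring K, (∀ t ∈ B, t ∈ V) → g ∈ V) : IsIntegral B g := by
  have e := iInf_valuationSubring_superset (s := (B.toSubring : Set K))
  rw [Subring.closure_eq] at e
  have : g ∈ (integralClosure B.toSubring K).toSubring :=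
    e ▸ Subring.mem_iInf.2 fun V => h V.1 V.2
  exact this

theorem mon_eq {Y J ι : Type} {N : ℕ} [Fintype J] {S : Sys ℂ K ι J N} {C : Cht K Y J N} {c : ι}
    (h : ∀ j, (S.η c j : K) = C.η j) (a n : J → ℕ) (d τ : ℕ) :
    (S.mon c fun j => (d : ℤ) * (τ * a j - n j) : K) = C.mon a ^ (d * τ) / C.mon n ^ d := by
  rw [Sys.mon, Units.coe_prod, Cht.mon, Cht.mon, ← Finset.prod_pow, ← Finset.prod_pow,
    ← Finset.prod_div_distrib]
  refine Finset.prod_congr rfl fun j _ => ?_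
  rw [Units.val_zpow_eq_zpow_val, ← h, ← pow_mul, ← pow_mul, ← zpow_natCast, ← zpow_natCast,
    ← zpow_sub₀ (S.η c j).ne_zero]
  congr 1
  push_cast
  ring

end POLA

open POLA in
theorem rowPOL : SPol := by
  intro K Y J κ ι N r _ _ _ _ _ G x q E a n k F j₀ C U i g d τ S hG hV hx cv ft hF hu
  have uq : ∀ c, ∀ y ∈ U c, G.Un y (q (i c) / (C c).mon n) := fun c y hy =>
    ((cv.ch c).gn_iff hG (cv.sub c hy) _).1 (cv.gen c y hy)
  have w0 : ∀ c, g c * q (i c) ^ d ≠ 0 ∧ F j₀ ≠ 0 := fun c => by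
    obtain ⟨y, hy⟩ := cv.ne c
    exact ⟨mul_ne_zero (cv.un c y hy).1 (pow_ne_zero _ (div_ne_zero_iff.1 (uq c y hy).1).1),
      (div_ne_zero_iff.1 (hu c y hy).1).1⟩
  obtain ⟨ρ, hρ⟩ : ∃ ρ : ι → Kˣ, ∀ c, (ρ c : K) = g c * q (i c) ^ d / F j₀ ^ (d * τ) :=
    ⟨fun c => Units.mk0 _ (div_ne_zero (w0 c).1 (pow_ne_zero _ (w0 c).2)), fun _ => rfl⟩
  have rt : ∀ b c, ((ρ b / ρ c : Kˣ) : K) = g b * q (i b) ^ d / (g c * q (i c) ^ d) :=
    fun b c => by
      rw [Units.val_div_eq_div_val, hρ, hρ, div_div_div_cancel_right₀ (pow_ne_zero _ (w0 c).2)]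
  have lc : ∀ b c, ∀ t ∈ S.A b, ∃ e : ℕ, (((ρ b / ρ c) ^ e : Kˣ) : K) * t ∈ S.A c :=
    fun b c t ht => by
      simp only [ft.A, Units.val_pow_eq_pow_val, rt] at ht ⊢
      exact hG.pow _ (cv.af c) _ (cv.mem b c) (div_ne_zero (w0 b).1 (w0 c).1) t
        (Geo.A_anti (cv.int b c ▸ Set.inter_subset_left) ht)
  refine ⟨ρ, fun c l => ?_, fun b c => by rw [rt, ft.A]; exact cv.mem b c, lc, fun c => ?_,
    fun c t ht => int_of _ fun V hB => ?_⟩
  · rw [ft.A]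
    refine Geo.mem_A.2 fun y hy => Fin.addCases (fun l => ?_) (fun j => ?_) l
    · rw [Fin.append_left]
      exact hx y l
    · obtain ⟨h, h1, h2⟩ := (cv.cov y).2 ⟨c, hy⟩ j
      rwa [Fin.append_right, h2, mul_div_cancel_right₀ _ (w0 c).2]
  · have u : ∀ y ∈ U c, G.Un y (ρ c * S.mon c fun j => (d : ℤ) * (τ * a j - n j) : Kˣ) :=
      fun y hy => by
        convert ((cv.un c y hy).mul ((uq c y hy).pow d)).div ((hu c y hy).pow (d * τ)) using 1
        rw [Units.val_mul, hρ, mon_eq (ft.η c), div_pow, div_pow, div_div_eq_mul_div]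
        ring
    rw [Sys.IsU, ft.A, Units.val_inv_eq_inv_val]
    exact ⟨Geo.mem_A.2 fun y hy => (u y hy).2.1, Geo.mem_A.2 fun y hy => (u y hy).2.2⟩
  · have m := fun l => hB _ (Algebra.subset_adjoin (Or.inl ⟨l, rfl⟩))
    obtain ⟨y, y1, y2⟩ := hV V (fun z => hB _ (Subalgebra.algebraMap_mem _ z))
      fun l => by simpa only [Fin.append_left] using m (Fin.castAdd r l)
    obtain ⟨j, hj⟩ := hF y
    obtain ⟨h, h1, h2⟩ := hj j₀
    obtain ⟨h0, j0⟩ := mul_ne_zero_iff.1 (h2 ▸ (w0 c).2)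
    have hi : h⁻¹ ∈ G.O y := y2 h h1 h0 (by
      have := m (Fin.natAdd N j)
      rwa [Fin.append_right, h2, div_mul_cancel_right₀ j0] at this)
    obtain ⟨b, hb⟩ := (cv.cov y).1 fun j' => by
      obtain ⟨h', a1, a2⟩ := hj j'
      exact ⟨h' * h⁻¹, mul_mem a1 hi, by rw [a2, h2, mul_assoc, inv_mul_cancel_left₀ h0]⟩
    obtain ⟨e, he⟩ := lc c b t ht
    rw [ft.A] at he
    have := mul_mem (pow_mem (hB _ (Algebra.subset_adjoin (Or.inr ⟨b, rfl⟩))) e)
      (y1 _ (Geo.mem_A.1 he y hb))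
    rwa [← mul_assoc, ← Units.val_pow_eq_pow_val, ← Units.val_mul, ← mul_pow, div_mul_div_cancel,
      div_self', one_pow, Units.val_one, one_mul] at this

end Pool.Agent.MP_ee8c61_ag.H95G
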