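import Pool.Agent.MP_ee8c61_ag.H95G.Spec

/-! Etale algebras over domains are reduced. -/

namespace Pool.Agent.MP_ee8c61_ag.H95G

open MvPolynomial TensorProduct

namespace RADA

theorem red (R A : Type) [CommRing R] [IsDomain R] [CommRing A] [Algebra R A] [Algebra.Etale R A] :
    IsReduced A :=
  have := Algebra.FormallyUnramified.isReduced_of_field (FractionRing R) (FractionRing R ⊗[R] A)
  isReduced_of_injective (Algebra.TensorProduct.includeRight (R := R) (A := FractionRing R))
    (Algebra.TensorProduct.includeRight_injective (IsFractionRing.injective R _))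

theorem rad {R A : Type} [CommRing R] [CommRing A] [Algebra R A] [Algebra.Etale R A] (p : Ideal R)
    [p.IsPrime] : (p.map (algebraMap R A)).IsRadical := by
  have := red (R ⧸ p) ((R ⧸ p) ⊗[R] A)
  rw [Ideal.isRadical_iff_quotient_reduced]
  exact isReduced_of_injective _ (Algebra.TensorProduct.quotIdealMapEquivQuotTensor A p).injective

end RADA

theorem rowRAD : SRad := by
  refine ⟨fun R A _ _ _ φ h => ?_, fun A _ N φ h i => ?_⟩
  · let _ := φ.toAlgebra
    have : Algebra.Etale R A := h
    exact RADA.red R A
  · let _ := φ.toAlgebra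
    have : Algebra.Etale (Po N) A := h
    have := (Ideal.span_singleton_prime (X_ne_zero i)).2 (X_prime (R := ℂ) (i := i))
    have := RADA.rad (A := A) (Ideal.span {(X i : Po N)})
    rwa [Ideal.map_span, Set.image_singleton] at this

end Pool.Agent.MP_ee8c61_ag.H95G
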