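import Pool.Agent.MP_ee8c61_ag.H95G.Defs
import Pool.Agent.MP_ee8c61_ag.H95.ADefs

/-! The function field of an integral scheme over affine space. -/

namespace Pool.Agent.MP_ee8c61_ag.H95G

open H95 AlgebraicGeometry CategoryTheory MvPolynomial

variable {N : ℕ} {Y : Scheme.{0}} [IsIntegral Y]

/-- The function field. -/
def FF (_π : Y ⟶ Aff N) : Type := Y.functionField

variable (π : Y ⟶ Aff N)

noncomputable instance : Field (FF π) := inferInstanceAs (Field Y.functionField)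

noncomputable instance : Algebra ℂ (FF π) :=
  RingHom.toAlgebra (R := ℂ) (S := FF π) ((gm π (genericPoint Y)).comp C)

/-- Germs as rational functions. -/
noncomputable def toF (y : Y) : Y.presheaf.stalk y →+* FF π :=
  algebraMap (Y.presheaf.stalk y) Y.functionField

theorem toF_inj (y : Y) : Function.Injective (toF π y) :=
  IsFractionRing.injective (Y.presheaf.stalk y) Y.functionField

/-- Sections as rational functions. -/
noncomputable def sec (U : Y.Opens) [Nonempty U] : Γ(Y, U) →+* FF π :=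
  (Y.germToFunctionField U).hom

theorem sec_inj (U : Y.Opens) [Nonempty U] : Function.Injective (sec π U) :=
  Y.germToFunctionField_injective U

theorem toF_germ {U : Y.Opens} [Nonempty U] {y : Y} (hy : y ∈ U) (s : Γ(Y, U)) :
    toF π y (Y.presheaf.germ U y hy s) = sec π U s :=
  Y.algebraMap_germ_eq_germToFunctionField hy s

theorem sec_res {U W : Y.Opens} [Nonempty U] [Nonempty W] (h : W ≤ U) (s : Γ(Y, U)) :
    sec π W (Y.presheaf.map (homOfLE h).op s) = sec π U s :=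
  Y.presheaf.germ_res_apply (homOfLE h) _ _ s

/-- Polynomials as rational functions. -/
noncomputable def ev : Po N →ₐ[ℂ] FF π :=
  { (gm π (genericPoint Y) : Po N →+* FF π) with commutes' := fun _ => rfl }

/-- The coordinate functions. -/
noncomputable def xx (l : Fin N) : FF π := ev π (X l)

theorem aeval_xx (p : Po N) : aeval (xx π) p = ev π p := by
  have : (aeval (xx π) : Po N →ₐ[ℂ] FF π) = ev π := algHom_ext fun i => by simp [xx]
  rw [this]

omit [IsIntegral Y] in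
theorem gm_eq {U : Y.Opens} {y : Y} (hy : y ∈ U) (p : Po N) :
    gm π y p = Y.presheaf.germ U y hy (pb π U p) := by
  rw [pb, ← Scheme.Hom.appLE_map π le_top (homOfLE (le_top (a := U))).op]
  exact (Y.presheaf.germ_res_apply (homOfLE le_top) _ hy _).symm

theorem sec_pb (U : Y.Opens) [Nonempty U] (p : Po N) : sec π U (pb π U p) = ev π p :=
  (gm_eq π _ p).symm

theorem toF_gm (y : Y) (p : Po N) : toF π y (gm π y p) = ev π p := by
  have : Nonempty (⊤ : Y.Opens) := ⟨⟨y, trivial⟩⟩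
  rw [gm_eq π (U := ⊤) trivial, toF_germ, sec_pb]

/-- The local rings and the affine open sets. -/
noncomputable def geo : Geo (FF π) Y where
  O y := { (toF π y).range with algebraMap_mem' := fun c => ⟨gm π y (C c), toF_gm π y _⟩ }
  Af U := ∃ V : Y.Opens, IsAffineOpen V ∧ U = V

theorem mem_O {y : Y} {g : FF π} : g ∈ (geo π).O y ↔ ∃ t, toF π y t = g := Iff.rfl

theorem ev_mem (y : Y) (p : Po N) : ev π p ∈ (geo π).O y := ⟨_, toF_gm π y p⟩

theorem un_toF {y : Y} (t : Y.presheaf.stalk y) : (geo π).Un y (toF π y t) ↔ IsUnit t := by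
  refine ⟨fun ⟨h0, _, t', h1⟩ => IsUnit.of_mul_eq_one t' (toF_inj π y ?_), fun ⟨u, hu⟩ => ?_⟩
  · rw [map_mul, h1, mul_inv_cancel₀ h0, map_one]
  · subst hu
    exact ⟨(u.isUnit.map _).ne_zero, ⟨_, rfl⟩, ⟨(u⁻¹ : _ˣ), map_units_inv _ u⟩⟩

theorem sec_mem {U : Y.Opens} [Nonempty U] (s : Γ(Y, U)) : sec π U s ∈ (geo π).A U :=
  Geo.mem_A.2 fun _ hy => ⟨_, toF_germ π hy s⟩

theorem un_sec {U : Y.Opens} [Nonempty U] {y : Y} (hy : y ∈ U) (s : Γ(Y, U)) :
    (geo π).Un y (sec π U s) ↔ y ∈ Y.basicOpen s := by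
  rw [← toF_germ π hy, un_toF, Y.mem_basicOpen s y hy]

/-- A germ is a section divided by a section that is a unit at the point. -/
theorem exists_frac {U : Y.Opens} [Nonempty U] (hU : IsAffineOpen U) {y : Y} (hy : y ∈ U)
    {g : FF π} (hg : g ∈ (geo π).O y) :
    ∃ s t : Γ(Y, U), y ∈ Y.basicOpen s ∧ sec π U s * g = sec π U t := by
  obtain ⟨w, rfl⟩ := hg
  let := TopCat.Presheaf.algebra_section_stalk Y.presheaf (⟨y, hy⟩ : U)
  have := hU.isLocalization_stalk ⟨y, hy⟩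
  obtain ⟨⟨t, s⟩, e⟩ := IsLocalization.surj (hU.primeIdealOf ⟨y, hy⟩).asIdeal.primeCompl
    (S := Y.presheaf.stalk (⟨y, hy⟩ : U).1) w
  have hs := IsLocalization.map_units (Y.presheaf.stalk (⟨y, hy⟩ : U).1) s
  refine ⟨s, t, (Y.mem_basicOpen _ y hy).2 hs, ?_⟩
  rw [← toF_germ π hy, ← toF_germ π hy, ← map_mul, mul_comm]
  exact congrArg _ e

/-- A rational function that is regular at all points of an affine open set is a section. -/
theorem exists_sec {U : Y.Opens} [Nonempty U] (hU : IsAffineOpen U) {g : FF π}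
    (hg : g ∈ (geo π).A U) : ∃ s, sec π U s = g := by
  let I : Ideal Γ(Y, U) :=
    { carrier := {s | ∃ t, sec π U s * g = sec π U t}
      add_mem' := fun ⟨t, h⟩ ⟨t', h'⟩ => ⟨t + t', by rw [map_add, add_mul, h, h', map_add]⟩
      zero_mem' := ⟨0, by simp⟩
      smul_mem' := fun c s ⟨t, h⟩ => ⟨c * t, by
        rw [smul_eq_mul, map_mul, mul_assoc, h, map_mul]⟩ }
  have h1 : I = ⊤ := by
    by_contra hI
    obtain ⟨M, hM, hIM⟩ := I.exists_le_maximal hI
    have hy : hU.fromSpec ⟨M, hM.isPrime⟩ ∈ U := hU.range_fromSpec.le ⟨_, rfl⟩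
    obtain ⟨s, t, h2, h3⟩ := exists_frac π hU hy (Geo.mem_A.1 hg _ hy)
    have h4 : (⟨M, hM.isPrime⟩ : PrimeSpectrum Γ(Y, U)) ∈ hU.fromSpec ⁻¹ᵁ Y.basicOpen s := h2
    rw [hU.fromSpec_preimage_basicOpen] at h4
    exact h4 (hIM ⟨t, h3⟩)
  obtain ⟨t, h⟩ : (1 : Γ(Y, U)) ∈ I := h1 ▸ trivial
  exact ⟨t, by simpa using h.symm⟩

theorem gen_iff {κ : Type} (p : κ → Po N) (i : κ) (y : Y) :
    Gen π (Ideal.span (Set.range p)) y (p i) ↔ (geo π).Gn (fun j => ev π (p j)) i y := by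
  unfold Gen
  rw [Ideal.map_span]
  refine ⟨fun h j => ?_, fun h => le_antisymm (Ideal.span_le.2 ?_)
    (Ideal.span_mono (Set.singleton_subset_iff.2 ⟨_, ⟨i, rfl⟩, rfl⟩))⟩
  · obtain ⟨t, ht⟩ := Ideal.mem_span_singleton'.1
      (h.le (Ideal.subset_span ⟨_, ⟨j, rfl⟩, rfl⟩))
    exact ⟨toF π y t, ⟨t, rfl⟩, by
      beta_reduce; rw [← toF_gm π y, ← toF_gm π y, ← map_mul, ht]⟩
  · rintro _ ⟨_, ⟨j, rfl⟩, rfl⟩
    obtain ⟨_, ⟨t, rfl⟩, e⟩ := h j
    exact Ideal.mem_span_singleton'.2 ⟨t, toF_inj π y (by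
      rw [map_mul, toF_gm, toF_gm]; exact e.symm)⟩

end Pool.Agent.MP_ee8c61_ag.H95G
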